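import Pool.Agent.H79.BQ.Stp

/-!
# Quasimodes: the assembly
-/

set_option autoImplicit false

namespace Pool.Agent.H79.BQ

open MeasureTheory Set Filter Topology Pool.Agent.H79.GT Pool.Agent.H44.DU

variable {n : ℕ} {S : Surf n} {t : ℝ} {f : Fin n → ℝ → ℝ}

/-- `q / (q + 1)` is at most one. -/
lemma frac_le {q c : ℝ} (hq : 0 ≤ q) (hc : 0 < c) : q * (c / (q + 1)) ≤ c := by
  rw [mul_div_assoc', div_le_iff₀ (by positivity)]
  nlinarith

/-- The estimate of the energy. -/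
lemma energy_bound {T κ ρ Λ C0 W δ ε N K E1 E2 : ℝ} (hT1 : 1 ≤ T) (hκ : 0 < κ)
    (hρ : ρ = κ / T) (hΛ : Λ = κ * T) (hC0 : 0 < C0) (hW : 0 < W) (hδ : 0 < δ) (hN : 0 ≤ N)
    (hK : 1 < K)
    (h1 : E1 ≤ 32 / (K ^ 2 * Λ ^ 2) *
      (3 * N * (16 * K * (1100 * N * (Λ * ρ)) + 30 * (W * δ))))
    (h2 : E2 ≤ C0 * (32 / (K ^ 2 * Λ ^ 2) *
      (3 * N * (16 * K * (1100 * N * (Λ * ρ)) + 30 * (W * δ))) +
      3 * N * (8192 / (K ^ 2 * ρ ^ 2) * (16 * K * (1100 * N * (Λ * ρ)) + 30 * (W * δ)) +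
        512 / ρ ^ 2 * (W * (50 * δ)))))
    (hKe : ((1 + C0) * (96 * N) + C0 * (3 * N) * 8192) * (17600 * N) / K ≤ ε / 2)
    (hδe : (((1 + C0) * (96 * N) + C0 * (3 * N) * 8192) * 30 + C0 * (3 * N) * 25600) * W /
      κ ^ 2 * δ ≤ ε / 2) : T ^ 2 * E1 + (T ^ 2)⁻¹ * E2 ≤ ε := by
  have hTp : 0 < T := by linarith
  have hKp : 0 < K := by linarith
  have hΛρ : Λ * ρ = κ ^ 2 := by rw [hΛ, hρ]; field_simp
  have hρp : 0 < ρ := by rw [hρ]; positivity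
  have hΛp : 0 < Λ := by rw [hΛ]; positivity
  rw [hΛρ] at h1 h2
  set C1 : ℝ := (1 + C0) * (96 * N) + C0 * (3 * N) * 8192 with hC1
  set C2 : ℝ := C0 * (3 * N) * 25600 with hC2
  have hC1' : 0 ≤ C1 := by positivity
  set B : ℝ := 16 * K * (1100 * N * κ ^ 2) + 30 * (W * δ) with hB
  have hB0 : 0 ≤ B := by positivity
  set q : ℝ := B / (K ^ 2 * κ ^ 2) with hq
  have h3 : T ^ 2 * (32 / (K ^ 2 * Λ ^ 2) * (3 * N * B)) = 96 * N * q := by
    rw [hq, hΛ]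
    field_simp
    ring
  have h4 : (T ^ 2)⁻¹ * (3 * N * (8192 / (K ^ 2 * ρ ^ 2) * B +
      512 / ρ ^ 2 * (W * (50 * δ)))) = 3 * N * (8192 * q + 25600 * (W * δ / κ ^ 2)) := by
    rw [hq, hρ]
    field_simp
    ring
  have hT2 : (T ^ 2)⁻¹ ≤ T ^ 2 := by
    have : 1 ≤ T ^ 2 := one_le_pow₀ hT1
    exact (inv_le_one_of_one_le₀ this).trans this
  have h5 : 0 ≤ 32 / (K ^ 2 * Λ ^ 2) * (3 * N * B) := by positivity
  have h6 : q = 17600 * N / K + 30 * (W * δ) / (K ^ 2 * κ ^ 2) := by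
    rw [hq, hB]
    field_simp
    ring
  have h7 : 30 * (W * δ) / (K ^ 2 * κ ^ 2) ≤ 30 * (W * δ) / κ ^ 2 := by
    refine div_le_div_of_nonneg_left (by positivity) (by positivity) ?_
    exact le_mul_of_one_le_left (by positivity) (one_le_pow₀ hK.le)
  calc T ^ 2 * E1 + (T ^ 2)⁻¹ * E2
      ≤ T ^ 2 * (32 / (K ^ 2 * Λ ^ 2) * (3 * N * B)) + (T ^ 2)⁻¹ *
          (C0 * (32 / (K ^ 2 * Λ ^ 2) * (3 * N * B) +
          3 * N * (8192 / (K ^ 2 * ρ ^ 2) * B + 512 / ρ ^ 2 * (W * (50 * δ))))) :=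
        add_le_add (mul_le_mul_of_nonneg_left h1 (by positivity))
          (mul_le_mul_of_nonneg_left h2 (by positivity))
    _ = T ^ 2 * (32 / (K ^ 2 * Λ ^ 2) * (3 * N * B)) +
          C0 * ((T ^ 2)⁻¹ * (32 / (K ^ 2 * Λ ^ 2) * (3 * N * B))) +
          C0 * ((T ^ 2)⁻¹ * (3 * N * (8192 / (K ^ 2 * ρ ^ 2) * B +
            512 / ρ ^ 2 * (W * (50 * δ))))) := by ring
    _ ≤ T ^ 2 * (32 / (K ^ 2 * Λ ^ 2) * (3 * N * B)) +
          C0 * (T ^ 2 * (32 / (K ^ 2 * Λ ^ 2) * (3 * N * B))) +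
          C0 * ((T ^ 2)⁻¹ * (3 * N * (8192 / (K ^ 2 * ρ ^ 2) * B +
            512 / ρ ^ 2 * (W * (50 * δ))))) := by
        have := mul_le_mul_of_nonneg_left (mul_le_mul_of_nonneg_right hT2 h5) hC0.le
        linarith
    _ = C1 * q + C2 * (W * δ / κ ^ 2) := by
        rw [h3, h4, hC1, hC2]
        ring
    _ ≤ C1 * (17600 * N / K + 30 * (W * δ) / κ ^ 2) + C2 * (W * δ / κ ^ 2) := by
        rw [h6]
        exact add_le_add (mul_le_mul_of_nonneg_left (by linarith) hC1') le_rfl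
    _ = C1 * (17600 * N) / K + (C1 * 30 + C2) * W / κ ^ 2 * δ := by ring
    _ ≤ ε / 2 + ε / 2 := add_le_add hKe hδe
    _ = ε := by ring

theorem pf_B0 (hR : T_RAD) (hI : T_INV) (hA : T_AV1) (h1 : T_CV1) (h2 : T_CV2)
    (hD : T_DER) (hE : T_EQV) (hLay : T_LAY) (hC : T_CH) (hP : T_PART) (hInt : T_INT)
    (hZ : T_ZON) (hT : T_TRI) (hS : T_SUM) (hVB : T_VB) : T_B0 := by
  classical
  intro n S t f τ hLD hSI ε hε
  have C : Ctx S t f := ⟨hR, hE, hP, hD, hLD, hSI⟩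
  obtain ⟨C0, hC0, hInt⟩ := hInt n S t
  obtain ⟨W, hW⟩ := exists_Chd hC hP S t
  have hW0 : 0 < W := zero_lt_one.trans_le hW.one_le
  have hn0 : (0 : ℝ) ≤ n := Nat.cast_nonneg n
  -- the constants
  set C1 : ℝ := (1 + C0) * (96 * n) + C0 * (3 * n) * 8192 with hC1
  set C2 : ℝ := C0 * (3 * n) * 25600 with hC2
  have hC1' : 0 ≤ C1 := by positivity
  have hC2' : 0 ≤ C2 := by positivity
  obtain ⟨K, hK⟩ := exists_nat_gt (max 1 (C1 * (17600 * n) / (ε / 2)))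
  have hK1 : (1 : ℝ) < K := (le_max_left _ _).trans_lt hK
  have hK0 : 0 < K := by
    have : (0 : ℝ) < K := by linarith
    exact_mod_cast this
  have hKp : (0 : ℝ) < K := by linarith
  have hKe : C1 * (17600 * n) / K ≤ ε / 2 := by
    have h3 := (le_max_right _ _).trans_lt hK
    rw [div_lt_iff₀ (by positivity)] at h3
    rw [div_le_iff₀ hKp]
    linarith
  obtain ⟨δ₂, hδ₂p, hδ₂e⟩ : ∃ δ₂ > 0, C0 * (3 * n) * (3 * δ₂) ≤ ε / 4 := by
    refine ⟨ε / 4 / (C0 * (3 * n) * 3 + 1), by positivity, ?_⟩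
    have := frac_le (q := C0 * (3 * n) * 3) (c := ε / 4) (by positivity) (by positivity)
    linarith
  -- the level
  have hlow : ∀ s : Side n, ∃ ρ > (0 : ℝ), ∀ a, 0 < a → a ≤ ρ →
      ∫ x in Ioo (le S t s) (ri S t s), {x | 0 < f s.1 x ^ 2 * ch S t s.1 x ∧
        f s.1 x ^ 2 * ch S t s.1 x < a}.indicator (1 : ℝ → ℝ) x ≤ δ₂ := by
    intro s
    have hm : Measurable fun x => f s.1 x ^ 2 * ch S t s.1 x :=
      ((hLD.meas s.1).pow_const 2).mul (hW.meas _)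
    obtain ⟨a0, ha0, ha0'⟩ := low_small (l := le S t s) (u := ri S t s) hm hδ₂p
    refine ⟨a0, ha0, fun a _ haa => le_trans ?_ ha0'⟩
    refine integral_mono_of_nonneg (ae_of_all _ fun x => Set.indicator_nonneg
      (fun _ _ => zero_le_one) x) ?_ (ae_of_all _ fun x => ?_)
    · exact IntegrableOn.indicator (integrableOn_const (by simp))
        ((measurableSet_lt measurable_const hm).inter (measurableSet_lt hm measurable_const))
    · have hsub : {x | 0 < f s.1 x ^ 2 * ch S t s.1 x ∧ f s.1 x ^ 2 * ch S t s.1 x < a} ⊆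
          {x | 0 < f s.1 x ^ 2 * ch S t s.1 x ∧ f s.1 x ^ 2 * ch S t s.1 x < a0} :=
        fun y hy => ⟨hy.1, hy.2.trans_le haa⟩
      exact Set.indicator_le_indicator_of_subset hsub (fun _ => zero_le_one) x
  obtain ⟨a, ha, hlow⟩ := exists_min _ hlow
  have hlow := fun s => hlow s a ha le_rfl
  -- kappa
  obtain ⟨κ, hκp, hκe⟩ : ∃ κ > 0,
      C0 * (3 * n) * (2 / a * (1100 * n * κ ^ 2 * 4 ^ K)) ≤ ε / 4 := by
    set q : ℝ := C0 * (3 * n) * (2 / a * (1100 * n * 4 ^ K)) with hq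
    have hq0 : 0 ≤ q := by positivity
    refine ⟨√(ε / 4 / (q + 1)), Real.sqrt_pos.2 (by positivity), ?_⟩
    rw [Real.sq_sqrt (by positivity)]
    have := frac_le (q := q) (c := ε / 4) hq0 (by positivity)
    calc _ = q * (ε / 4 / (q + 1)) := by rw [hq]; ring
      _ ≤ _ := this
  -- delta
  obtain ⟨δ, hδ, hδe1, hδe2⟩ : ∃ δ > 0, (C1 * 30 + C2) * W / κ ^ 2 * δ ≤ ε / 2 ∧
      C0 * (3 * n) * (2 + 2 / a) * δ ≤ ε / 4 := by
    set q1 : ℝ := (C1 * 30 + C2) * W / κ ^ 2 with hq1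
    set q2 : ℝ := C0 * (3 * n) * (2 + 2 / a) with hq2
    have hq10 : 0 ≤ q1 := by positivity
    have hq20 : 0 ≤ q2 := by positivity
    refine ⟨min (ε / 2 / (q1 + 1)) (ε / 4 / (q2 + 1)), by positivity, ?_, ?_⟩
    · exact (mul_le_mul_of_nonneg_left (min_le_left _ _) hq10).trans
        (frac_le hq10 (by positivity))
    · exact (mul_le_mul_of_nonneg_left (min_le_right _ _) hq20).trans
        (frac_le hq20 (by positivity))
  -- the small masses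
  have hsml : ∀ s : Side n, ∃ ρ > (0 : ℝ), ∀ r, 0 < r → r ≤ ρ →
      (le S t s < ri S t s → Sml S t f τ δ s r) := by
    intro s
    by_cases hs : le S t s < ri S t s
    · obtain ⟨ρ, hρ, h⟩ := C.small hI h1 h2 hs τ hδ
      exact ⟨ρ, hρ, fun r hr hr' _ => h r hr hr'⟩
    · exact ⟨1, one_pos, fun r _ _ h => absurd h hs⟩
  obtain ⟨ρ₁, hρ₁, hsml⟩ := exists_min _ hsml
  obtain ⟨ρ₂, hρ₂, L₀, hL₀, hVB⟩ := hVB n S t f hLD hSI δ hδ
  have hρ₀p : 0 < min ρ₁ ρ₂ := lt_min hρ₁ hρ₂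
  refine ⟨max 1 (max (2 ^ K * κ / min ρ₁ ρ₂) (L₀ / κ)), lt_max_of_lt_left one_pos,
    fun T hT₀ => ?_⟩
  have hT1 : 1 ≤ T := (le_max_left _ _).trans hT₀
  have hTp : 0 < T := by linarith
  have hT2 : 2 ^ K * κ / T ≤ min ρ₁ ρ₂ := by
    have h3 : 2 ^ K * κ / min ρ₁ ρ₂ ≤ T :=
      (le_max_left _ _).trans ((le_max_right _ _).trans hT₀)
    rw [div_le_iff₀ hρ₀p] at h3
    rw [div_le_iff₀ hTp]
    linarith
  have hT3 : L₀ ≤ κ * T := by
    have h3 : L₀ / κ ≤ T := (le_max_right _ _).trans ((le_max_right _ _).trans hT₀)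
    rw [div_le_iff₀ hκp] at h3
    linarith
  have hρp : 0 < κ / T := by positivity
  have hΛp : 0 < κ * T := by positivity
  have hΛρ : κ * T * (κ / T) = κ ^ 2 := by field_simp
  set r : ℕ → ℝ := fun j => 2 ^ j * (κ / T) with hr
  set L : ℕ → ℝ := fun j => 2 ^ j * (κ * T) with hL
  have hr0 : ∀ j, 0 < r j := fun j => by simp only [hr]; positivity
  have hL0 : ∀ j, 0 < L j := fun j => by simp only [hL]; positivity
  have hrK : ∀ j ≤ K, r j ≤ min ρ₁ ρ₂ := by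
    intro j hj
    refine le_trans ?_ hT2
    simp only [hr]
    rw [mul_div_assoc]
    refine mul_le_mul_of_nonneg_right ?_ hρp.le
    exact pow_le_pow_right₀ (by norm_num) hj
  have hLK : ∀ j, L₀ ≤ L j := by
    intro j
    refine hT3.trans ?_
    simp only [hL]
    exact le_mul_of_one_le_left hΛp.le (one_le_pow₀ (by norm_num))
  choose θ hθ hθm using fun j => hLay n S t f hLD hSI (r j) (L j) (hr0 j) (hL0 j)
  obtain ⟨G, hG1, hG2, hG3, hG4, hG5⟩ := C.step (τ := τ) (K := K) (r := r) (L := L) (θ := θ)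
    hS hA hZ hT hC0 hInt hW hK0 hδ.le hδ₂p.le ha hρp hΛp (fun _ => rfl) (fun _ => rfl) hθ
    (fun j hj s => hVB (r j) (L j) (hr0 j) ((hrK j hj).trans (min_le_right _ _)) (hLK j)
      (θ j) (hθ j) (hθm j) s)
    (fun s hs j hj => hsml s (r j) (hr0 j) ((hrK j hj).trans (min_le_left _ _)) hs) hlow
  refine ⟨G, hG1, hG2, ?_, hG5.trans ?_⟩
  · exact energy_bound hT1 hκp rfl rfl hC0 hW0 hδ hn0 hK1 hG3 hG4 hKe hδe1
  · rw [hΛρ]
    calc C0 * (3 * n * (2 * δ + 3 * δ₂ + 2 / a * (1100 * n * κ ^ 2 * 4 ^ K + δ)))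
        = C0 * (3 * n) * (3 * δ₂) + C0 * (3 * n) * (2 / a * (1100 * n * κ ^ 2 * 4 ^ K)) +
          C0 * (3 * n) * (2 + 2 / a) * δ := by ring
      _ ≤ ε / 4 + ε / 4 + ε / 4 := add_le_add (add_le_add hδ₂e hκe) hδe2
      _ ≤ ε := by linarith

end Pool.Agent.H79.BQ
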