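import Pool.Agent.H79.GT.Targets

/-!
# Quasimodes: pointwise facts about the layers
-/

set_option autoImplicit false

namespace Pool.Agent.H79.BQ

open MeasureTheory Set Filter Topology Pool.Agent.H79.GT Pool.Agent.H44.DU

variable {n : ℕ} (S : Surf n) (t : ℝ) (f : Fin n → ℝ → ℝ)

/-- The average of a layer. -/
noncomputable def ps (r : ℝ) (θ : Side n → ℝ → ℝ) (s : Side n) (x : ℝ) : ℂ :=
  av (Rd S t f r s) (fun y => (θ s y : ℂ)) x

/-- The average of the support of a layer. -/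
noncomputable def dj (r : ℝ) (θ : Side n → ℝ → ℝ) (s : Side n) (x : ℝ) : ℝ :=
  fa (Rd S t f r s) ((Es S t θ s.1).indicator 1) x

/-- The oscillation of the density. -/
noncomputable def oj (r : ℝ) (s : Side n) (x : ℝ) : ℝ :=
  fa (Rd S t f r s) (fun y => |f s.1 y - f s.1 x|) x

/-- The oscillation of the unitary section. -/
noncomputable def ou (τ r : ℝ) (s : Side n) (x : ℝ) : ℝ :=
  fa (Rd S t f r s) (fun y => ‖uu τ f s.1 y - uu τ f s.1 x‖) x

/-- The average of the unitary section. -/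
noncomputable def us (τ r : ℝ) (s : Side n) (x : ℝ) : ℂ :=
  av (Rd S t f r s) (uu τ f s.1) x

/-- The cutoff function. -/
noncomputable def ki (K : ℕ) (r : ℕ → ℝ) (θ : ℕ → Side n → ℝ → ℝ) (s : Side n) (x : ℝ) : ℂ :=
  (K : ℂ)⁻¹ * ∑ j ∈ Finset.range K, ps S t f (r j) (θ j) s x

/-- The section on the sides. -/
noncomputable def ph (τ : ℝ) (K : ℕ) (r : ℕ → ℝ) (θ : ℕ → Side n → ℝ → ℝ) (s : Side n)
    (x : ℝ) : ℂ :=
  open Classical in
  if le S t s < x ∧ x < ri S t s then ki S t f K r θ s x * us S t f τ (r 0) s x else 0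

variable {S t f}

/-- The modules on the geometry and the averages, together with the hypotheses on the density. -/
structure Ctx (S : Surf n) (t : ℝ) (f : Fin n → ℝ → ℝ) : Prop where
  rad : T_RAD
  eqv : T_EQV
  part : T_PART
  der : T_DER
  ld : S.LD t f
  si : S.SInc t (S.pf t f)

variable (C : Ctx S t f)

include C

lemma Ctx.dns {s : Side n} (h : le S t s < ri S t s) :
    Dns (f s.1) (S.pf t f s.1) (le S t s) (ri S t s) :=
  (C.eqv n S t f C.ld C.si).1 s h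

lemma Ctx.rlip {s : Side n} (h : le S t s < ri S t s) {r : ℝ} (hr : 0 < r) (x y : ℝ) :
    |Rd S t f r s x - Rd S t f r s y| ≤ |x - y| :=
  (C.rad _ _ _ _ (C.dns h) r hr).2.2.1 x y

lemma Ctx.rpos {s : Side n} {r x : ℝ} (hr : 0 < r) (h1 : le S t s < x) (h2 : x < ri S t s) :
    0 < Rd S t f r s x :=
  (C.rad _ _ _ _ (C.dns (h1.trans h2)) r hr).2.1 x h1 h2

lemma Ctx.rmem {s : Side n} {r x : ℝ} (hr : 0 < r) (h1 : le S t s < x) (h2 : x < ri S t s) :
    le S t s ≤ x - Rd S t f r s x ∧ x + Rd S t f r s x ≤ ri S t s :=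
  ⟨((C.rad _ _ _ _ (C.dns (h1.trans h2)) r hr).1 x h1.le h2.le).2.1,
    ((C.rad _ _ _ _ (C.dns (h1.trans h2)) r hr).1 x h1.le h2.le).2.2.1⟩

lemma Ctx.mem_ball {s : Side n} {r x y : ℝ} (hr : 0 < r) (h1 : le S t s < x) (h2 : x < ri S t s)
    (hy : y ∈ Ioo (x - 3 / 4 * Rd S t f r s x) (x + 3 / 4 * Rd S t f r s x)) :
    le S t s < y ∧ y < ri S t s := by
  have h3 := C.rpos hr h1 h2
  have h4 := C.rmem hr h1 h2
  obtain ⟨h5, h6⟩ := hy
  constructor <;> linarith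

omit C in
lemma fa_nonneg {R : ℝ → ℝ} {φ : ℝ → ℝ} {x : ℝ} (hR : 0 ≤ R x) (h : ∀ y, 0 ≤ φ y) :
    0 ≤ fa R φ x :=
  mul_nonneg (inv_nonneg.2 hR) (integral_nonneg h)

omit C in
lemma fa_le {R : ℝ → ℝ} {φ : ℝ → ℝ} {x c : ℝ} (hR : 0 < R x)
    (h : ∀ y ∈ Ioo (x - 3 / 4 * R x) (x + 3 / 4 * R x), |φ y| ≤ c) :
    fa R φ x ≤ 3 / 2 * c := by
  have h1 : ‖∫ y in Ioo (x - 3 / 4 * R x) (x + 3 / 4 * R x), φ y‖ ≤
      c * (volume : Measure ℝ).real (Ioo (x - 3 / 4 * R x) (x + 3 / 4 * R x)) :=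
    norm_setIntegral_le_of_norm_le_const (by simp) (fun y hy => h y hy)
  rw [Measure.real, Real.volume_Ioo, ENNReal.toReal_ofReal (by linarith)] at h1
  have h2 := (le_abs_self _).trans h1
  unfold fa
  rw [inv_mul_le_iff₀ hR]
  calc ∫ y in Ioo (x - 3 / 4 * R x) (x + 3 / 4 * R x), φ y ≤ _ := h2
    _ = R x * (3 / 2 * c) := by ring

omit C in
lemma fa_mono {R : ℝ → ℝ} {φ ψ : ℝ → ℝ} {x : ℝ} (hR : 0 < R x) (h0 : ∀ y, 0 ≤ φ y)
    (hi : IntegrableOn ψ (Ioo (x - 3 / 4 * R x) (x + 3 / 4 * R x)))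
    (h : ∀ y ∈ Ioo (x - 3 / 4 * R x) (x + 3 / 4 * R x), φ y ≤ ψ y) :
    fa R φ x ≤ fa R ψ x := by
  unfold fa
  refine mul_le_mul_of_nonneg_left ?_ (inv_nonneg.2 hR.le)
  refine integral_mono_of_nonneg (ae_of_all _ h0) hi ?_
  exact (ae_restrict_iff' measurableSet_Ioo).2 (ae_of_all _ h)

omit C in
lemma meas_Es {θ : Side n → ℝ → ℝ} (h : ∀ s, Measurable (θ s)) (i : Fin n) :
    MeasurableSet (Es S t θ i) := by
  have : Es S t θ i = ⋃ s : Side n, {x | s.1 = i ∧ (S.InI t s x ∨ S.InJ t s x) ∧ θ s x < 1} := by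
    ext x; simp [Es]
  rw [this]
  refine MeasurableSet.iUnion fun s => ?_
  by_cases hs : s.1 = i
  · simp only [hs, true_and]
    refine MeasurableSet.inter (MeasurableSet.union ?_ ?_) (measurableSet_lt (h s) measurable_const)
    · exact measurableSet_Ioo
    · exact measurableSet_Ioo
  · simp [hs]

omit C in
lemma intE {θ : Side n → ℝ → ℝ} (h : ∀ s, Measurable (θ s)) (i : Fin n) (a b : ℝ) :
    IntegrableOn ((Es S t θ i).indicator (1 : ℝ → ℝ)) (Ioo a b) := by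
  refine IntegrableOn.indicator ?_ (meas_Es h i)
  exact integrableOn_const (by simp)

lemma Ctx.dj_nonneg {s : Side n} {r x : ℝ} (hr : 0 < r) (h1 : le S t s < x) (h2 : x < ri S t s)
    (θ : Side n → ℝ → ℝ) : 0 ≤ dj S t f r θ s x :=
  fa_nonneg (C.rpos hr h1 h2).le fun y => Set.indicator_nonneg (fun _ _ => zero_le_one) y

lemma Ctx.dj_le {s : Side n} {r x : ℝ} (hr : 0 < r) (h1 : le S t s < x) (h2 : x < ri S t s)
    (θ : Side n → ℝ → ℝ) : dj S t f r θ s x ≤ 3 / 2 := by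
  have := fa_le (φ := (Es S t θ s.1).indicator 1) (c := 1) (C.rpos hr h1 h2) fun y _ => by
    by_cases hy : y ∈ Es S t θ s.1
    · simp [hy]
    · simp [hy]
  rw [mul_one] at this
  exact this

lemma Ctx.oj_nonneg {s : Side n} {r x : ℝ} (hr : 0 < r) (h1 : le S t s < x)
    (h2 : x < ri S t s) : 0 ≤ oj S t f r s x :=
  fa_nonneg (C.rpos hr h1 h2).le fun _ => abs_nonneg _

omit C in
lemma norm_uu (τ : ℝ) (f : Fin n → ℝ → ℝ) (i : Fin n) (x : ℝ) : ‖uu τ f i x‖ ≤ 1 := by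
  unfold uu
  split_ifs with h
  · rw [Complex.norm_exp]
    simp
  · simp

omit C in
lemma meas_uu (τ : ℝ) {f : Fin n → ℝ → ℝ} (hf : ∀ i, Measurable (f i)) (i : Fin n) :
    Measurable (uu τ f i) := by
  unfold uu
  refine Measurable.ite (measurableSet_lt measurable_const (hf i)) ?_ measurable_const
  have h1 : Measurable fun x => ((τ * Real.log (f i x) : ℝ) : ℂ) :=
    Complex.measurable_ofReal.comp (((Real.measurable_log.comp (hf i))).const_mul τ)
  have h2 : (fun x => Complex.exp (-(Complex.I * (τ * Real.log (f i x))))) =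
      fun x => Complex.exp (-(Complex.I * ((τ * Real.log (f i x) : ℝ) : ℂ))) := by
    funext x; push_cast; rfl
  rw [h2]
  exact Complex.measurable_exp.comp ((h1.const_mul Complex.I).neg)

lemma Ctx.ou_nonneg {s : Side n} {τ r x : ℝ} (hr : 0 < r) (h1 : le S t s < x)
    (h2 : x < ri S t s) : 0 ≤ ou S t f τ r s x :=
  fa_nonneg (C.rpos hr h1 h2).le fun _ => norm_nonneg _

lemma Ctx.ou_le {s : Side n} {τ r x : ℝ} (hr : 0 < r) (h1 : le S t s < x)
    (h2 : x < ri S t s) : ou S t f τ r s x ≤ 3 := by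
  have := fa_le (φ := fun y => ‖uu τ f s.1 y - uu τ f s.1 x‖) (c := 2) (C.rpos hr h1 h2)
    fun y _ => by
    rw [abs_of_nonneg (norm_nonneg _)]
    have h3 := norm_uu τ f s.1 y
    have h4 := norm_uu τ f s.1 x
    have h5 := norm_sub_le (uu τ f s.1 y) (uu τ f s.1 x)
    linarith
  norm_num at this
  exact this

/-- The hypotheses of the tent kernel for a layer. -/
lemma Ctx.derθ {s : Side n} {r L x : ℝ} {θ : Side n → ℝ → ℝ} (hθ : Lay S t f r L θ) (hr : 0 < r)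
    (h1 : le S t s < x) (h2 : x < ri S t s) :
    ‖ps S t f r θ s x‖ ≤ 1 ∧ ‖ps S t f r θ s x - 1‖ ≤ 2 * dj S t f r θ s x ∧
      ∀ x', |x' - x| ≤ Rd S t f r s x / 8 → ‖ps S t f r θ s x' - ps S t f r θ s x‖ ≤
        16 * (|x' - x| / Rd S t f r s x) * dj S t f r θ s x := by
  have hRp := C.rpos hr h1 h2
  have hD := C.der (Rd S t f r s) (C.rlip (h1.trans h2) hr) (fun y => (θ s y : ℂ))
    (Complex.measurable_ofReal.comp (hθ.meas s)) (fun y => by
      rw [Complex.norm_real, Real.norm_eq_abs, abs_of_nonneg (hθ.nonneg s y)]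
      exact hθ.le_one s y) x hRp
  have hfa : fa (Rd S t f r s) (fun y => ‖(θ s y : ℂ) - 1‖) x ≤ dj S t f r θ s x := by
    refine fa_mono hRp (fun y => norm_nonneg _) (intE hθ.meas _ _ _) fun y hy => ?_
    obtain ⟨h3, h4⟩ := C.mem_ball hr h1 h2 hy
    have e1 : ‖(θ s y : ℂ) - 1‖ = 1 - θ s y := by
      rw [← Complex.ofReal_one, ← Complex.ofReal_sub, Complex.norm_real, Real.norm_eq_abs,
        abs_sub_comm, abs_of_nonneg (by linarith [hθ.le_one s y])]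
    rw [e1]
    by_cases hy1 : θ s y < 1
    · have hyE : y ∈ Es S t θ s.1 :=
        ⟨s, rfl, ((C.part n S t).2.1 s y).2 ⟨h3, h4⟩, hy1⟩
      rw [Set.indicator_of_mem hyE]
      simp only [Pi.one_apply]
      linarith [hθ.nonneg s y]
    · have h5 : θ s y = 1 := le_antisymm (hθ.le_one s y) (not_lt.1 hy1)
      rw [h5, sub_self]
      exact Set.indicator_nonneg (fun _ _ => zero_le_one) y
  obtain ⟨d1, d2⟩ := hD
  obtain ⟨d3, d4⟩ := d2 1
  refine ⟨d1, d3.trans (by linarith), fun x' hx' => (d4 x' hx').trans ?_⟩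
  refine mul_le_mul_of_nonneg_left hfa ?_
  positivity

/-- The hypotheses of the tent kernel for the unitary section. -/
lemma Ctx.deru {s : Side n} {τ r x : ℝ} (hr : 0 < r)
    (h1 : le S t s < x) (h2 : x < ri S t s) :
    ‖us S t f τ r s x‖ ≤ 1 ∧ ‖us S t f τ r s x - uu τ f s.1 x‖ ≤ 2 * ou S t f τ r s x ∧
      (∀ x', |x' - x| ≤ Rd S t f r s x / 8 → ‖us S t f τ r s x' - us S t f τ r s x‖ ≤
        16 * (|x' - x| / Rd S t f r s x) * ou S t f τ r s x) := by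
  have hRp := C.rpos hr h1 h2
  have hD := C.der (Rd S t f r s) (C.rlip (h1.trans h2) hr) (uu τ f s.1)
    (meas_uu τ C.ld.meas s.1) (fun y => norm_uu τ f s.1 y) x hRp
  obtain ⟨d1, d2⟩ := hD
  obtain ⟨d3, d4⟩ := d2 (uu τ f s.1 x)
  exact ⟨d1, d3, d4⟩

lemma Ctx.norm_ki {s : Side n} {K : ℕ} {r L : ℕ → ℝ} {x : ℝ} {θ : ℕ → Side n → ℝ → ℝ}
    (hθ : ∀ j, Lay S t f (r j) (L j) (θ j)) (hr : ∀ j, 0 < r j)
    (h1 : le S t s < x) (h2 : x < ri S t s) : ‖ki S t f K r θ s x‖ ≤ 1 := by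
  unfold ki
  rw [norm_mul, norm_inv, Complex.norm_natCast]
  rcases Nat.eq_zero_or_pos K with hK | hK
  · subst hK; simp
  · have hK' : (0 : ℝ) < K := by exact_mod_cast hK
    rw [inv_mul_le_iff₀ hK', mul_one]
    refine (norm_sum_le _ _).trans ?_
    calc ∑ j ∈ Finset.range K, ‖ps S t f (r j) (θ j) s x‖ ≤ ∑ j ∈ Finset.range K, (1 : ℝ) :=
          Finset.sum_le_sum fun j _ => (C.derθ (hθ j) (hr j) h1 h2).1
      _ = K := by simp

lemma Ctx.norm_ph {s : Side n} {τ : ℝ} {K : ℕ} {r L : ℕ → ℝ} {x : ℝ}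
    {θ : ℕ → Side n → ℝ → ℝ}
    (hθ : ∀ j, Lay S t f (r j) (L j) (θ j)) (hr : ∀ j, 0 < r j) :
    ‖ph S t f τ K r θ s x‖ ≤ 1 := by
  unfold ph
  split_ifs with h
  · rw [norm_mul]
    exact mul_le_one₀ (C.norm_ki hθ hr h.1 h.2) (norm_nonneg _) (C.deru (hr 0) h.1 h.2).1
  · simp

/-- The cutoff function is close to one. -/
lemma Ctx.ki_sub_one {s : Side n} {K : ℕ} {r L : ℕ → ℝ} {x : ℝ} {θ : ℕ → Side n → ℝ → ℝ}
    (hK : 0 < K) (hθ : ∀ j, Lay S t f (r j) (L j) (θ j)) (hr : ∀ j, 0 < r j)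
    (h1 : le S t s < x) (h2 : x < ri S t s) :
    ‖ki S t f K r θ s x - 1‖ ≤ 2 / K * ∑ j ∈ Finset.range K, dj S t f (r j) (θ j) s x := by
  have hK' : (0 : ℝ) < K := by exact_mod_cast hK
  have hKc : (K : ℂ) ≠ 0 := by exact_mod_cast hK.ne'
  have e1 : ki S t f K r θ s x - 1 =
      (K : ℂ)⁻¹ * ∑ j ∈ Finset.range K, (ps S t f (r j) (θ j) s x - 1) := by
    unfold ki
    rw [Finset.sum_sub_distrib]
    simp only [Finset.sum_const, Finset.card_range, nsmul_eq_mul, mul_one]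
    field_simp
  rw [e1, norm_mul, norm_inv, Complex.norm_natCast]
  calc (K : ℝ)⁻¹ * ‖∑ j ∈ Finset.range K, (ps S t f (r j) (θ j) s x - 1)‖
      ≤ (K : ℝ)⁻¹ * ∑ j ∈ Finset.range K, 2 * dj S t f (r j) (θ j) s x := by
        refine mul_le_mul_of_nonneg_left ?_ (inv_nonneg.2 hK'.le)
        exact (norm_sum_le _ _).trans
          (Finset.sum_le_sum fun j _ => (C.derθ (hθ j) (hr j) h1 h2).2.1)
    _ = 2 / K * ∑ j ∈ Finset.range K, dj S t f (r j) (θ j) s x := by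
        rw [← Finset.mul_sum]; ring

/-- The distance of the section on the sides to the unitary section. -/
lemma Ctx.ph_sub {s : Side n} {τ : ℝ} {K : ℕ} {r L : ℕ → ℝ} {x : ℝ}
    {θ : ℕ → Side n → ℝ → ℝ}
    (hK : 0 < K) (hθ : ∀ j, Lay S t f (r j) (L j) (θ j)) (hr : ∀ j, 0 < r j)
    (h1 : le S t s < x) (h2 : x < ri S t s) :
    ‖ph S t f τ K r θ s x - uu τ f s.1 x‖ ≤ 2 * ou S t f τ (r 0) s x +
      2 / K * ∑ j ∈ Finset.range K, (if 0 < f s.1 x then dj S t f (r j) (θ j) s x else 0) := by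
  have e0 : ph S t f τ K r θ s x = ki S t f K r θ s x * us S t f τ (r 0) s x := by
    unfold ph; exact if_pos ⟨h1, h2⟩
  have e1 : ki S t f K r θ s x * us S t f τ (r 0) s x - uu τ f s.1 x =
      ki S t f K r θ s x * (us S t f τ (r 0) s x - uu τ f s.1 x) +
        (ki S t f K r θ s x - 1) * uu τ f s.1 x := by ring
  rw [e0, e1]
  refine (norm_add_le _ _).trans (add_le_add ?_ ?_)
  · rw [norm_mul]
    calc ‖ki S t f K r θ s x‖ * ‖us S t f τ (r 0) s x - uu τ f s.1 x‖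
        ≤ 1 * (2 * ou S t f τ (r 0) s x) :=
          mul_le_mul (C.norm_ki hθ hr h1 h2) (C.deru (hr 0) h1 h2).2.1 (norm_nonneg _)
            zero_le_one
      _ = _ := one_mul _
  · rw [norm_mul]
    by_cases hf : 0 < f s.1 x
    · simp only [hf, if_true]
      calc ‖ki S t f K r θ s x - 1‖ * ‖uu τ f s.1 x‖ ≤ ‖ki S t f K r θ s x - 1‖ * 1 :=
            mul_le_mul_of_nonneg_left (norm_uu τ f s.1 x) (norm_nonneg _)
        _ = ‖ki S t f K r θ s x - 1‖ := mul_one _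
        _ ≤ _ := C.ki_sub_one hK hθ hr h1 h2
    · have : uu τ f s.1 x = 0 := by unfold uu; exact if_neg hf
      simp [this, hf]

end Pool.Agent.H79.BQ
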