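import Pool.Agent.H79.GT.Targets

/-!
# The cutoff function of a set in a measure preserving system
-/

set_option autoImplicit false

namespace Pool.Agent.H79.BQ

open MeasureTheory Set Filter Topology Pool.Agent.H79.GT

/-- The sum of the truncated terms until the partial sum reaches `L`. -/
lemma trunc_sum (a : ℕ → ℝ) (ha : ∀ k, 0 ≤ a k) (L : ℝ) (hL : 0 < L) (N : ℕ) :
    ∑ k ∈ Finset.range N, (if ∑ m ∈ Finset.range k, a m < L then min (a k) L else 0) ≤
      min (∑ m ∈ Finset.range N, a m) (2 * L) := by
  induction N with
  | zero => simp [hL.le]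
  | succ N ih =>
    rw [Finset.sum_range_succ]
    have h1 := ih.trans (min_le_left _ _)
    have h2 := ih.trans (min_le_right _ _)
    rw [Finset.sum_range_succ a]
    split_ifs with h
    · refine le_min ?_ ?_
      · exact add_le_add h1 (min_le_left _ _)
      · have := min_le_right (a N) L
        linarith
    · refine le_min ?_ ?_
      · have := ha N
        linarith
      · linarith

lemma trunc_tsum (a : ℕ → ℝ) (ha : ∀ k, 0 ≤ a k) (L : ℝ) (hL : 0 < L) :
    ∑' k, ENNReal.ofReal (if ∑ m ∈ Finset.range k, a m < L then min (a k) L else 0) ≤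
      ENNReal.ofReal (2 * L) := by
  refine ENNReal.tsum_le_of_sum_range_le fun N => ?_
  rw [← ENNReal.ofReal_sum_of_nonneg]
  · exact ENNReal.ofReal_le_ofReal ((trunc_sum a ha L hL N).trans (min_le_right _ _))
  · intro k _
    split_ifs
    · exact le_min (ha k) hL.le
    · exact le_rfl

theorem pf_MASS : T_MASS := by
  classical
  intro Ω _ μ _ T T' G hT hT' hG hGae τ Z L hτ hτ0 hZ hL
  have hmT : Measurable T := hT.measurable
  have hmT' : Measurable T' := hT'.measurable
  set S : ℕ → Ω → ℝ := fun k p => ∑ j ∈ Finset.range k, τ (T^[j] p) with hS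
  set S' : ℕ → Ω → ℝ := fun k p => ∑ j ∈ Finset.range k, τ (T'^[j + 1] p) with hS'
  have hSm : ∀ k, Measurable (S k) := fun k =>
    Finset.measurable_sum _ fun j _ => hτ.comp (hmT.iterate j)
  have hSm' : ∀ k, Measurable (S' k) := fun k =>
    Finset.measurable_sum _ fun j _ => hτ.comp (hmT'.iterate (j + 1))
  have hS0 : ∀ k p, 0 ≤ S k p := fun k p => Finset.sum_nonneg fun j _ => hτ0 _
  have hS0' : ∀ k p, 0 ≤ S' k p := fun k p => Finset.sum_nonneg fun j _ => hτ0 _
  set a : ℕ → Ω → ℝ := fun k p => if T^[k] p ∈ Z then min 1 (S k p / L) else 1 with ha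
  set b : ℕ → Ω → ℝ := fun k p => if T'^[k] p ∈ Z then min 1 (S' k p / L) else 1 with hb
  have ham : ∀ k, Measurable (a k) := fun k =>
    Measurable.ite (hmT.iterate k hZ) (measurable_const.min ((hSm k).div_const L))
      measurable_const
  have hbm : ∀ k, Measurable (b k) := fun k =>
    Measurable.ite (hmT'.iterate k hZ) (measurable_const.min ((hSm' k).div_const L))
      measurable_const
  have ha0 : ∀ k p, 0 ≤ a k p := by
    intro k p
    simp only [ha]
    split_ifs
    · exact le_min zero_le_one (div_nonneg (hS0 k p) hL.le)
    · exact zero_le_one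
  have hb0 : ∀ k p, 0 ≤ b k p := by
    intro k p
    simp only [hb]
    split_ifs
    · exact le_min zero_le_one (div_nonneg (hS0' k p) hL.le)
    · exact zero_le_one
  have ha1 : ∀ k p, a k p ≤ 1 := by
    intro k p
    simp only [ha]
    split_ifs
    · exact min_le_left _ _
    · exact le_rfl
  have hbda : ∀ p, BddBelow (Set.range fun k => a k p) := fun p =>
    ⟨0, by rintro _ ⟨k, rfl⟩; exact ha0 k p⟩
  have hbdb : ∀ p, BddBelow (Set.range fun k => b k p) := fun p =>
    ⟨0, by rintro _ ⟨k, rfl⟩; exact hb0 k p⟩
  set θ : Ω → ℝ := fun p => min (⨅ k, a k p) (⨅ k, b k p) with hθ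
  have hθa : ∀ k p, θ p ≤ a k p := fun k p => (min_le_left _ _).trans (ciInf_le (hbda p) k)
  have hθb : ∀ k p, θ p ≤ b k p := fun k p => (min_le_right _ _).trans (ciInf_le (hbdb p) k)
  have hle : ∀ c p, (∀ k, c ≤ a k p) → (∀ k, c ≤ b k p) → c ≤ θ p := fun c p h1 h2 =>
    le_min (le_ciInf h1) (le_ciInf h2)
  -- shift rules
  have it : ∀ k p, T^[k + 1] p = T^[k] (T p) := fun k p => Function.iterate_succ_apply T k p
  have it' : ∀ k p, T'^[k + 1] p = T'^[k] (T' p) := fun k p => Function.iterate_succ_apply T' k p
  have sS : ∀ k p, S (k + 1) p = τ p + S k (T p) := by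
    intro k p
    simp only [hS]
    rw [Finset.sum_range_succ']
    simp only [Function.iterate_zero, id_eq, it]
    ring
  have sS' : ∀ k p, p ∈ G → S' (k + 1) (T p) = τ p + S' k p := by
    intro k p hp
    simp only [hS']
    rw [Finset.sum_range_succ']
    have e0 : T' (T p) = p := (hG p hp).2.2.1
    simp only [it', e0, Function.iterate_zero, id_eq]
    ring
  have sT' : ∀ k p, p ∈ G → T'^[k + 1] (T p) = T'^[k] p := by
    intro k p hp
    rw [it', (hG p hp).2.2.1]
  have hdiv : ∀ x y : ℝ, x ≤ y → x / L ≤ y / L := fun x y h => div_le_div_of_nonneg_right h hL.le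
  have hlip : ∀ p ∈ G, |θ (T p) - θ p| ≤ τ p / L := by
    intro p hp
    have hτL : 0 ≤ τ p / L := div_nonneg (hτ0 p) hL.le
    have h1 : θ p - τ p / L ≤ θ (T p) := by
      refine hle _ _ (fun k => ?_) (fun k => ?_)
      · have := hθa (k + 1) p
        simp only [ha, it, sS] at this ⊢
        split_ifs at this ⊢ with h
        · rw [add_div] at this
          refine le_min ?_ ?_
          · have := this.trans (min_le_left _ _)
            linarith
          · have := this.trans (min_le_right _ _)
            linarith
        · linarith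
      · cases k with
        | zero =>
          have e0 : b 0 (T p) = if T p ∈ Z then min 1 (S' 0 (T p) / L) else 1 := rfl
          rw [e0]
          by_cases h : T p ∈ Z
          · rw [if_pos h]
            have h2 := hθa 1 p
            have e1 : a 1 p = min 1 (S 1 p / L) := if_pos h
            have e2 : S 1 p = τ p := by simp [hS]
            have e3 : S' 0 (T p) = 0 := by simp [hS']
            rw [e1, e2] at h2
            rw [e3, zero_div]
            have h3 := h2.trans (min_le_right _ _)
            refine le_min ?_ ?_ <;> linarith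
          · rw [if_neg h]
            have := (hθa 0 p).trans (ha1 0 p)
            linarith
        | succ k =>
          have h2 := hθb k p
          simp only [hb, sT' k p hp, sS' k p hp] at h2 ⊢
          split_ifs at h2 ⊢ with h
          · refine le_min ?_ ?_
            · have := h2.trans (min_le_left _ _)
              linarith
            · have := h2.trans (min_le_right _ _)
              rw [add_div]
              linarith
          · linarith
    have h2 : θ (T p) - τ p / L ≤ θ p := by
      refine hle _ _ (fun k => ?_) (fun k => ?_)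
      · cases k with
        | zero =>
          have e0 : a 0 p = if p ∈ Z then min 1 (S 0 p / L) else 1 := rfl
          rw [e0]
          by_cases h : p ∈ Z
          · rw [if_pos h]
            have h2 := hθb 1 (T p)
            have e1 : T'^[1] (T p) = p := by
              have := sT' 0 p hp
              simpa using this
            have e2 : S' 1 (T p) = τ p := by
              have := sS' 0 p hp
              simpa [hS'] using this
            have e3 : b 1 (T p) = min 1 (S' 1 (T p) / L) := by
              simp only [hb, e1]
              exact if_pos h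
            have e4 : S 0 p = 0 := by simp [hS]
            rw [e3, e2] at h2
            rw [e4, zero_div]
            have h3 := h2.trans (min_le_right _ _)
            refine le_min ?_ ?_ <;> linarith
          · rw [if_neg h]
            have := (hθa 0 (T p)).trans (ha1 0 (T p))
            linarith
        | succ k =>
          have h2 := hθa k (T p)
          simp only [ha, it, sS] at h2 ⊢
          split_ifs at h2 ⊢ with h
          · refine le_min ?_ ?_
            · have := h2.trans (min_le_left _ _)
              linarith
            · have := h2.trans (min_le_right _ _)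
              rw [add_div]
              linarith
          · linarith
      · have h2 := hθb (k + 1) (T p)
        simp only [hb, sT' k p hp, sS' k p hp] at h2 ⊢
        split_ifs at h2 ⊢ with h
        · rw [add_div] at h2
          refine le_min ?_ ?_
          · have := h2.trans (min_le_left _ _)
            linarith
          · have := h2.trans (min_le_right _ _)
            linarith
        · linarith
    rw [abs_le]
    constructor <;> linarith
  -- the mass
  set F : ℕ → Ω → ENNReal := fun k q => Z.indicator (fun q => ENNReal.ofReal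
    (if ∑ m ∈ Finset.range k, τ (T^[m] q) < L then min (τ (T^[k] q)) L else 0)) q with hF
  set F' : ℕ → Ω → ENNReal := fun k q => Z.indicator (fun q => ENNReal.ofReal
    (if ∑ m ∈ Finset.range k, τ (T'^[m + 1] q) < L then min (τ (T'^[k + 1] q)) L else 0)) q
    with hF'
  have hFm : ∀ k, Measurable (F k) := by
    intro k
    refine Measurable.indicator ?_ hZ
    refine Measurable.ennreal_ofReal (Measurable.ite ?_ ?_ measurable_const)
    · exact measurableSet_lt (hSm k) measurable_const
    · exact (hτ.comp (hmT.iterate k)).min measurable_const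
  have hFm' : ∀ k, Measurable (F' k) := by
    intro k
    refine Measurable.indicator ?_ hZ
    refine Measurable.ennreal_ofReal (Measurable.ite ?_ ?_ measurable_const)
    · exact measurableSet_lt (hSm' k) measurable_const
    · exact (hτ.comp (hmT'.iterate (k + 1))).min measurable_const
  have hFs : ∫⁻ p, ∑' k, F k p ∂μ ≤ ENNReal.ofReal (2 * L) * μ Z := by
    calc ∫⁻ p, ∑' k, F k p ∂μ ≤ ∫⁻ p, Z.indicator (fun _ => ENNReal.ofReal (2 * L)) p ∂μ := by
          refine lintegral_mono fun q => ?_
          by_cases hq : q ∈ Z
          · simp only [hF, Set.indicator_of_mem hq]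
            exact trunc_tsum (fun m => τ (T^[m] q)) (fun m => hτ0 _) L hL
          · simp [hF, Set.indicator_of_notMem hq]
      _ = ENNReal.ofReal (2 * L) * μ Z := by
          rw [lintegral_indicator hZ, setLIntegral_const]
  have hFs' : ∫⁻ p, ∑' k, F' k p ∂μ ≤ ENNReal.ofReal (2 * L) * μ Z := by
    calc ∫⁻ p, ∑' k, F' k p ∂μ ≤ ∫⁻ p, Z.indicator (fun _ => ENNReal.ofReal (2 * L)) p ∂μ := by
          refine lintegral_mono fun q => ?_
          by_cases hq : q ∈ Z
          · simp only [hF', Set.indicator_of_mem hq]
            exact trunc_tsum (fun m => τ (T'^[m + 1] q)) (fun m => hτ0 _) L hL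
          · simp [hF', Set.indicator_of_notMem hq]
      _ = ENNReal.ofReal (2 * L) * μ Z := by
          rw [lintegral_indicator hZ, setLIntegral_const]
  -- orbit identities on the good set
  have gT : ∀ k, ∀ p ∈ G, T^[k] p ∈ G := by
    intro k
    induction k with
    | zero => intro p hp; exact hp
    | succ k ih => intro p hp; rw [it]; exact ih _ (hG p hp).1
  have gT' : ∀ k, ∀ p ∈ G, T'^[k] p ∈ G := by
    intro k
    induction k with
    | zero => intro p hp; exact hp
    | succ k ih => intro p hp; rw [it']; exact ih _ (hG p hp).2.1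
  -- going back `j` steps
  have back : ∀ j, ∀ p ∈ G, T^[j] (T'^[j] p) = p := by
    intro j
    induction j with
    | zero => intro p _; rfl
    | succ j ih =>
      intro p hp
      rw [it, Function.iterate_succ_apply' T' j p, (hG _ (gT' j p hp)).2.2.2, ih p hp]
  have back' : ∀ j, ∀ p ∈ G, T'^[j] (T^[j] p) = p := by
    intro j
    induction j with
    | zero => intro p _; rfl
    | succ j ih =>
      intro p hp
      rw [it', Function.iterate_succ_apply' T j p, (hG _ (gT j p hp)).2.2.1, ih p hp]
  have mix : ∀ k m p, p ∈ G → m ≤ k → T^[m] (T'^[k] p) = T'^[k - m] p := by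
    intro k m p hp hmk
    obtain ⟨l, rfl⟩ := Nat.exists_eq_add_of_le hmk
    rw [Nat.add_sub_cancel_left, Function.iterate_add_apply, back m _ (gT' l p hp)]
  have mix' : ∀ k m p, p ∈ G → m ≤ k → T'^[m] (T^[k] p) = T^[k - m] p := by
    intro k m p hp hmk
    obtain ⟨l, rfl⟩ := Nat.exists_eq_add_of_le hmk
    rw [Nat.add_sub_cancel_left, Function.iterate_add_apply, back' m _ (gT l p hp)]
  have key : ∀ p ∈ G, (θ p < 1 ∨ θ (T p) < 1) → ENNReal.ofReal (min (τ p) L) ≤
      (∑' k, F k (T'^[k] p)) + ∑' k, F' k (T^[k + 1] p) := by
    intro p hp hor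
    -- the B part
    have hB : ∀ k, T'^[k] p ∈ Z → S' k p < L → ENNReal.ofReal (min (τ p) L) ≤
        (∑' k, F k (T'^[k] p)) + ∑' k, F' k (T^[k + 1] p) := by
      intro k hk hsk
      refine le_trans ?_ (le_add_right (ENNReal.le_tsum k))
      simp only [hF, Set.indicator_of_mem hk]
      have e1 : ∑ m ∈ Finset.range k, τ (T^[m] (T'^[k] p)) = S' k p := by
        simp only [hS']
        rw [← Finset.sum_range_reflect]
        refine Finset.sum_congr rfl fun j hj => ?_
        have hj' := Finset.mem_range.1 hj
        rw [mix k (k - 1 - j) p hp (by omega)]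
        congr 2
        omega
      rw [e1, if_pos hsk, back k p hp]
    have hC : ∀ k, T^[k + 1] p ∈ Z → S k (T p) < L → ENNReal.ofReal (min (τ p) L) ≤
        (∑' k, F k (T'^[k] p)) + ∑' k, F' k (T^[k + 1] p) := by
      intro k hk hsk
      refine le_trans ?_ (le_add_left (ENNReal.le_tsum k))
      simp only [hF', Set.indicator_of_mem hk]
      have e1 : ∑ m ∈ Finset.range k, τ (T'^[m + 1] (T^[k + 1] p)) = S k (T p) := by
        simp only [hS]
        rw [← Finset.sum_range_reflect]
        refine Finset.sum_congr rfl fun j hj => ?_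
        have hj' := Finset.mem_range.1 hj
        rw [mix' (k + 1) (k - 1 - j + 1) p hp (by omega)]
        have e2 : k + 1 - (k - 1 - j + 1) = j + 1 := by omega
        rw [e2, it]
      rw [e1, if_pos hsk, back' (k + 1) p hp]
    have hA : ∀ k, T^[k] p ∈ Z → S k p < L → ENNReal.ofReal (min (τ p) L) ≤
        (∑' k, F k (T'^[k] p)) + ∑' k, F' k (T^[k + 1] p) := by
      intro k hk hsk
      cases k with
      | zero =>
        refine hB 0 hk ?_
        simpa [hS'] using hL
      | succ k =>
        refine hC k hk ?_
        rw [sS] at hsk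
        have := hτ0 p
        linarith
    have lt_of : ∀ k q, a k q < 1 → T^[k] q ∈ Z ∧ S k q < L := by
      intro k q h
      simp only [ha] at h
      split_ifs at h with h1
      · refine ⟨h1, ?_⟩
        rcases min_lt_iff.1 h with h2 | h2
        · exact absurd h2 (lt_irrefl _)
        · rwa [div_lt_one hL] at h2
      · exact absurd h (lt_irrefl _)
    have lt_of' : ∀ k q, b k q < 1 → T'^[k] q ∈ Z ∧ S' k q < L := by
      intro k q h
      simp only [hb] at h
      split_ifs at h with h1
      · refine ⟨h1, ?_⟩
        rcases min_lt_iff.1 h with h2 | h2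
        · exact absurd h2 (lt_irrefl _)
        · rwa [div_lt_one hL] at h2
      · exact absurd h (lt_irrefl _)
    have ex : ∀ q, θ q < 1 → (∃ k, a k q < 1) ∨ ∃ k, b k q < 1 := by
      intro q h
      rcases min_lt_iff.1 h with h2 | h2
      · exact Or.inl (exists_lt_of_ciInf_lt h2)
      · exact Or.inr (exists_lt_of_ciInf_lt h2)
    rcases hor with h | h
    · rcases ex p h with ⟨k, hk⟩ | ⟨k, hk⟩
      · exact hA k (lt_of k p hk).1 (lt_of k p hk).2
      · exact hB k (lt_of' k p hk).1 (lt_of' k p hk).2
    · rcases ex (T p) h with ⟨k, hk⟩ | ⟨k, hk⟩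
      · exact hC k (by rw [it]; exact (lt_of k _ hk).1) (lt_of k _ hk).2
      · obtain ⟨h1, h2⟩ := lt_of' k _ hk
        cases k with
        | zero =>
          refine hC 0 ?_ ?_
          · simpa using h1
          · simpa [hS] using hL
        | succ k =>
          rw [sT' k p hp] at h1
          rw [sS' k p hp] at h2
          refine hB k h1 ?_
          have := hτ0 p
          linarith
  have hθm : Measurable θ := (Measurable.iInf ham).min (Measurable.iInf hbm)
  refine ⟨θ, hθm, fun p => ⟨?_, (hθa 0 p).trans (ha1 0 p)⟩, fun p hp => ?_, hlip, ?_⟩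
  · exact hle 0 p (fun k => ha0 k p) fun k => hb0 k p
  · refine le_antisymm ?_ (hle 0 p (fun k => ha0 k p) fun k => hb0 k p)
    have h1 := hθa 0 p
    simp only [ha, Function.iterate_zero, id_eq, hp, if_true, hS, Finset.sum_range_zero,
      zero_div] at h1
    exact h1.trans (min_le_right _ _)
  · have hset : MeasurableSet {p | θ p < 1 ∨ θ (T p) < 1} :=
      (measurableSet_lt hθm measurable_const).union
        (measurableSet_lt (hθm.comp hmT) measurable_const)
    calc ∫⁻ p in {p | θ p < 1 ∨ θ (T p) < 1}, ENNReal.ofReal (min (τ p) L) ∂μ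
        ≤ ∫⁻ p, ((∑' k, F k (T'^[k] p)) + ∑' k, F' k (T^[k + 1] p)) ∂μ := by
          rw [← lintegral_indicator hset]
          refine lintegral_mono_ae ?_
          filter_upwards [hGae] with p hp
          by_cases h : p ∈ {p | θ p < 1 ∨ θ (T p) < 1}
          · rw [Set.indicator_of_mem h]
            exact key p hp h
          · rw [Set.indicator_of_notMem h]
            exact bot_le
      _ = (∑' k, ∫⁻ p, F k (T'^[k] p) ∂μ) + ∑' k, ∫⁻ p, F' k (T^[k + 1] p) ∂μ := by
          rw [lintegral_add_left, lintegral_tsum, lintegral_tsum]
          · intro k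
            exact ((hFm' k).comp (hmT.iterate (k + 1))).aemeasurable
          · intro k
            exact ((hFm k).comp (hmT'.iterate k)).aemeasurable
          · exact Measurable.tsum fun k => (hFm k).comp (hmT'.iterate k)
      _ = (∑' k, ∫⁻ p, F k p ∂μ) + ∑' k, ∫⁻ p, F' k p ∂μ := by
          congr 1
          · refine tsum_congr fun k => ?_
            exact (hT'.iterate k).lintegral_comp (hFm k)
          · refine tsum_congr fun k => ?_
            exact (hT.iterate (k + 1)).lintegral_comp (hFm' k)
      _ = (∫⁻ p, ∑' k, F k p ∂μ) + ∫⁻ p, ∑' k, F' k p ∂μ := by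
          rw [lintegral_tsum fun k => (hFm k).aemeasurable,
            lintegral_tsum fun k => (hFm' k).aemeasurable]
      _ ≤ ENNReal.ofReal (2 * L) * μ Z + ENNReal.ofReal (2 * L) * μ Z := add_le_add hFs hFs'
      _ ≤ ENNReal.ofReal (8 * L) * μ Z := by
          rw [← add_mul]
          gcongr
          rw [← ENNReal.ofReal_add (by positivity) (by positivity)]
          exact ENNReal.ofReal_le_ofReal (by linarith)

end Pool.Agent.H79.BQ
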