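import Pool.Agent.H44.GT.Targets
import Pool.Agent.H79.BQ.MASS
import Pool.Agent.H79.BQ.B0
import Pool.Agent.H7.GT.Rows
import Pool.Agent.H7.GT.RowCV2
import Pool.Agent.H11.BQ.DER
import Pool.Agent.H20.BQ.EQV
import Pool.Agent.H20.BQ.CH
import Pool.Agent.H33.BQ.FUB
import Pool.Agent.H33.BQ.PART
import Pool.Agent.H36.BQ.VB
import Pool.Agent.H54.BQ.INT
import Pool.Agent.H56.BQ.SUM
import Pool.Agent.H68.BQ.TRI
import Pool.Agent.H77.BQ.LAY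
import Pool.Agent.H77.BQ.ZON
import Pool.Agent.H88.GT.Inv

/-!
# Quasimodes of a density: block B
-/

set_option autoImplicit false

namespace Pool.Agent.H79.BQ

open Pool.Agent.H79.GT Pool.Agent.H44.DU

/-- The quasimodes, without hypotheses. -/
theorem B0_all : T_B0 :=
  have hR : T_RAD := Pool.Agent.H7.GT.RAD
  have hP : T_PART := Pool.Agent.H33.BQ.pf_PART
  have hC : T_CH := Pool.Agent.H20.BQ.pf_CH hP
  have hE : T_EQV := Pool.Agent.H20.BQ.pf_EQV hR hP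
  have hZ : T_ZON := Pool.Agent.H77.BQ.pf_ZON hR Pool.Agent.H7.GT.SAME hE hP
  pf_B0 hR (Pool.Agent.H88.GT.pf_T_INV hR Pool.Agent.H7.GT.SM) Pool.Agent.H7.GT.AV1
    Pool.Agent.H7.GT.CV1 Pool.Agent.H7.GT.CV2 Pool.Agent.H11.BQ.pf_DER hE
    (Pool.Agent.H77.BQ.pf_LAY pf_MASS hC hP hE) hC hP
    (Pool.Agent.H54.BQ.pf_INT hC hP (Pool.Agent.H33.BQ.pf_FUB hC)) hZ
    (Pool.Agent.H68.BQ.pf_TRI hR hZ hC hP hE) Pool.Agent.H56.BQ.pf_SUM
    (Pool.Agent.H36.BQ.pf_VB Pool.Agent.H7.GT.WK hE hC hP)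

/-- Block B. -/
theorem pf_B_0 : B_0 := by
  intro n S t τ f _ hLD hSI ε hε
  obtain ⟨T₀, -, h⟩ := B0_all n S t f τ hLD hSI ε hε
  exact ⟨T₀, fun T hT => h T hT⟩

end Pool.Agent.H79.BQ
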