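import Pool.Agent.H79.BQ.Sm

/-!
# Quasimodes: the integral bounds of one side
-/

set_option autoImplicit false

namespace Pool.Agent.H79.BQ

open MeasureTheory Set Filter Topology Pool.Agent.H79.GT Pool.Agent.H44.DU

/-- Uniform small parameters for a finite family. -/
lemma exists_min {ι : Type} [Fintype ι] (P : ι → ℝ → Prop)
    (h : ∀ i, ∃ ρ > (0 : ℝ), ∀ r, 0 < r → r ≤ ρ → P i r) :
    ∃ ρ > (0 : ℝ), ∀ i, ∀ r, 0 < r → r ≤ ρ → P i r := by
  classical
  choose ρ hρ hP using h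
  rcases isEmpty_or_nonempty ι with hE | hE
  · exact ⟨1, one_pos, fun i => hE.elim i⟩
  · refine ⟨Finset.univ.inf' Finset.univ_nonempty ρ, (Finset.lt_inf'_iff _).2 fun i _ => hρ i,
      fun i r hr hr' => hP i r hr (hr'.trans (Finset.inf'_le _ (Finset.mem_univ i)))⟩

variable {n : ℕ} {S : Surf n} {t : ℝ} {f : Fin n → ℝ → ℝ}

/-- The small quantities of a side at the mass `r`. -/
def Sml (S : Surf n) (t : ℝ) (f : Fin n → ℝ → ℝ) (τ δ : ℝ) (s : Side n) (r : ℝ) : Prop :=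
  (IntegrableOn (fun x => oj S t f r s x ^ 2) (Ioo (le S t s) (ri S t s)) ∧
    ∫ x in Ioo (le S t s) (ri S t s), oj S t f r s x ^ 2 ≤ δ) ∧
  (IntegrableOn (ou S t f τ r s) (Ioo (le S t s) (ri S t s)) ∧
    ∫ x in Ioo (le S t s) (ri S t s), ou S t f τ r s x ≤ δ) ∧
  (IntegrableOn (fun x => f s.1 x ^ 2 * ou S t f τ r s x ^ 2)
      (Ioo (le S t s) (ri S t s)) ∧
    ∫ x in Ioo (le S t s) (ri S t s), f s.1 x ^ 2 * ou S t f τ r s x ^ 2 ≤ δ) ∧
  ∃ e : ℝ → ℝ, Measurable e ∧ (∀ x, 0 ≤ e x) ∧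
    IntegrableOn (fun x => e x ^ 2) (Ioo (le S t s) (ri S t s)) ∧
    ∫ x in Ioo (le S t s) (ri S t s), e x ^ 2 ≤ δ ∧
    ∀ x, le S t s < x → x < ri S t s →
      ¬ Zn (S.pf t f s.1) (le S t s) (ri S t s) r x →
      r / Rd S t f r s x ≤ 4 * f s.1 x + e x

/-- The geometry of the chords which is used. -/
structure Chd (S : Surf n) (t : ℝ) (W : ℝ) : Prop where
  one_le : 1 ≤ W
  nonneg : ∀ i x, 0 ≤ ch S t i x
  pos : ∀ s x, le S t s < x → x < ri S t s → 0 < ch S t s.1 x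
  le : ∀ s x, le S t s < x → x < ri S t s → ch S t s.1 x ≤ W
  meas : ∀ i, Measurable (ch S t i)

lemma exists_Chd (hC : T_CH) (hP : T_PART) (S : Surf n) (t : ℝ) : ∃ W, Chd S t W := by
  have hb : ∀ i : Fin n, ∃ W : ℝ, 0 ≤ W ∧ ∀ x ∈ Icc (S.xl t i) (S.xr t i), ch S t i x ≤ W := by
    intro i
    obtain ⟨-, -, -, -, -, -, -, -, -, K, hK1, hK2⟩ := hC n S t i
    have hc : ContinuousOn (ch S t i) (Icc (S.xl t i) (S.xr t i)) :=
      hK1.continuousOn.sub hK2.continuousOn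
    obtain ⟨W, hW⟩ := isCompact_Icc.exists_bound_of_continuousOn hc
    refine ⟨max W 0, le_max_right _ _, fun x hx => ?_⟩
    exact (le_abs_self _).trans ((hW x hx).trans (le_max_left _ _))
  choose W hW0 hW using hb
  have hsub : ∀ (s : Side n) x, le S t s < x → x < ri S t s →
      S.xl t s.1 < x ∧ x < S.xr t s.1 := by
    intro s x h1 h2
    have := (hP n S t).2.2.1 s
    exact ⟨this.1.trans_lt h1, h2.trans_le this.2.2⟩
  refine ⟨1 + ∑ i, W i, ?_, ?_, ?_, ?_, ?_⟩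
  · have := Finset.sum_nonneg fun i (_ : i ∈ Finset.univ) => hW0 i
    linarith
  · exact fun i x => (hC n S t i).2.2.2.2.2.1 x
  · intro s x h1 h2
    exact (hC n S t s.1).2.2.2.2.1 x (hsub s x h1 h2).1 (hsub s x h1 h2).2
  · intro s x h1 h2
    have h3 := hW s.1 x ⟨(hsub s x h1 h2).1.le, (hsub s x h1 h2).2.le⟩
    have h4 := Finset.single_le_sum (fun i (_ : i ∈ Finset.univ) => hW0 i)
      (Finset.mem_univ s.1)
    linarith
  · exact fun i => (hC n S t i).2.2.2.2.2.2.2.1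

/-- A weighted integral bound. -/
lemma weight_bound {l u W δ : ℝ} {g w : ℝ → ℝ} (hW : 0 ≤ W) (hg0 : ∀ x ∈ Ioo l u, 0 ≤ g x)
    (hw : ∀ x ∈ Ioo l u, 0 ≤ w x ∧ w x ≤ W)
    (hwm : Measurable w) (hg : IntegrableOn g (Ioo l u)) (hδ : ∫ x in Ioo l u, g x ≤ δ) :
    IntegrableOn (fun x => g x * w x) (Ioo l u) ∧ ∫ x in Ioo l u, g x * w x ≤ W * δ := by
  have hi : IntegrableOn (fun x => g x * w x) (Ioo l u) := by
    refine Integrable.mono' (hg.const_mul W) (hg.aestronglyMeasurable.mul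
      hwm.aestronglyMeasurable) ?_
    refine (ae_restrict_iff' measurableSet_Ioo).2 (ae_of_all _ fun x hx => ?_)
    obtain ⟨h1, h2⟩ := hw x hx
    rw [Real.norm_eq_abs, abs_of_nonneg (mul_nonneg (hg0 x hx) h1), mul_comm]
    exact mul_le_mul_of_nonneg_right h2 (hg0 x hx)
  refine ⟨hi, ?_⟩
  calc ∫ x in Ioo l u, g x * w x ≤ ∫ x in Ioo l u, W * g x := by
        refine setIntegral_mono_on hi (hg.const_mul W) measurableSet_Ioo fun x hx => ?_
        rw [mul_comm]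
        exact mul_le_mul_of_nonneg_right (hw x hx).2 (hg0 x hx)
    _ = W * ∫ x in Ioo l u, g x := integral_const_mul _ _
    _ ≤ W * δ := mul_le_mul_of_nonneg_left hδ hW

variable (C : Ctx S t f)

include C

lemma Ctx.dj_meas (hA : T_AV1) {s : Side n} (hs : le S t s < ri S t s) {r : ℝ} (hr : 0 < r)
    {θ : Side n → ℝ → ℝ} (hθ : ∀ s, Measurable (θ s)) :
    AEStronglyMeasurable (dj S t f r θ s) (volume.restrict (Ioo (le S t s) (ri S t s))) :=
  (hA _ _ _ _ (C.dns hs) r hr ((Es S t θ s.1).indicator 1)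
    (fun x => Set.indicator_nonneg (fun _ _ => zero_le_one) x)
    (intE hθ s.1 _ _)).1.aestronglyMeasurable

/-- The bounds of the sums of the layers on one side. -/
lemma Ctx.ints (hS : T_SUM) (hA : T_AV1) {W : ℝ} (hW : Chd S t W) {s : Side n}
    (hs : le S t s < ri S t s) {δ ρ Λ : ℝ} {K : ℕ} {r L : ℕ → ℝ}
    {θ : ℕ → Side n → ℝ → ℝ} (hδ : 0 ≤ δ) (hρ : 0 < ρ) (hΛ : 0 < Λ)
    (hr : ∀ j, r j = 2 ^ j * ρ) (hL : ∀ j, L j = 2 ^ j * Λ)
    (hθ : ∀ j, Lay S t f (r j) (L j) (θ j))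
    (hV : ∀ j < K, ∫ x in Ioo (le S t s) (ri S t s), f s.1 x ^ 2 * ch S t s.1 x *
      fa (Rd S t f (r j) s) ((Es S t (θ j) s.1).indicator 1) x ≤
        1100 * n * L j * r j + δ)
    (E : ℕ → ℝ → ℝ)
    (hEi : ∀ j < K, IntegrableOn (fun x => E j x ^ 2) (Ioo (le S t s) (ri S t s)))
    (hEm : ∀ j < K, AEStronglyMeasurable (E j)
      (volume.restrict (Ioo (le S t s) (ri S t s))))
    (hE1 : ∀ j < K, ∫ x in Ioo (le S t s) (ri S t s), E j x ^ 2 ≤ δ) :
    IntegrableOn (fun x => (∑ j ∈ Finset.range K, (1 / 2 : ℝ) ^ j *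
      (f s.1 x * dj S t f (r j) (θ j) s x + E j x)) ^ 2 * ch S t s.1 x)
      (Ioo (le S t s) (ri S t s)) ∧
    ∫ x in Ioo (le S t s) (ri S t s), (∑ j ∈ Finset.range K, (1 / 2 : ℝ) ^ j *
      (f s.1 x * dj S t f (r j) (θ j) s x + E j x)) ^ 2 * ch S t s.1 x ≤
      16 * K * (1100 * n * (Λ * ρ)) + 30 * (W * δ) := by
  have hr0 : ∀ j, 0 < r j := fun j => by rw [hr]; positivity
  have hd := C.dns hs
  have hwb : ∀ x ∈ Ioo (le S t s) (ri S t s), 0 ≤ ch S t s.1 x ∧ ch S t s.1 x ≤ W :=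
    fun x hx => ⟨hW.nonneg _ _, hW.le s x hx.1 hx.2⟩
  have hW0 : 0 ≤ W := zero_le_one.trans hW.one_le
  refine sumb hS (by positivity) (by positivity) (fun x => C.ld.nonneg _ _)
    (fun x => hW.nonneg _ _) hd.meas.aestronglyMeasurable (hW.meas _).aestronglyMeasurable
    (fun j _ => C.dj_meas hA hs (hr0 j) (hθ j).meas) hEm
    (fun j _ x hx => ⟨C.dj_nonneg (hr0 j) hx.1 hx.2 _,
      (C.dj_le (hr0 j) hx.1 hx.2 _).trans (by norm_num)⟩)
    (weight_bound (δ := ∫ x in Ioo (le S t s) (ri S t s), f s.1 x ^ 2) hW0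
      (fun x _ => sq_nonneg _) hwb (hW.meas _) hd.sq le_rfl).1
    (fun j hj => (weight_bound (δ := δ) hW0 (fun x _ => sq_nonneg _) hwb (hW.meas _)
      (hEi j hj) (hE1 j hj)).1)
    (fun j hj => (weight_bound hW0 (fun x _ => sq_nonneg _) hwb (hW.meas _)
      (hEi j hj) (hE1 j hj)).2) (fun j hj => ?_)
  refine (hV j hj).trans ?_
  have e1 : 1100 * (n : ℝ) * L j * r j = 1100 * n * (Λ * ρ) * 4 ^ j := by
    rw [hL, hr, show (4 : ℝ) = 2 * 2 by norm_num, mul_pow]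
    ring
  rw [e1]
  have : δ ≤ W * δ := le_mul_of_one_le_left hδ hW.one_le
  linarith

/-- The distance of the section on a side to the unitary section. -/
lemma Ctx.close (hA : T_AV1) {W : ℝ} (hW : Chd S t W) {s : Side n}
    (hs : le S t s < ri S t s) {τ δ δ₂ a ρ Λ : ℝ} {K : ℕ} (hK : 0 < K) {r L : ℕ → ℝ}
    {θ : ℕ → Side n → ℝ → ℝ} (ha : 0 < a) (hρ : 0 < ρ) (hΛ : 0 < Λ)
    (hr : ∀ j, r j = 2 ^ j * ρ) (hL : ∀ j, L j = 2 ^ j * Λ)
    (hθ : ∀ j, Lay S t f (r j) (L j) (θ j))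
    (hV : ∀ j < K, ∫ x in Ioo (le S t s) (ri S t s), f s.1 x ^ 2 * ch S t s.1 x *
      fa (Rd S t f (r j) s) ((Es S t (θ j) s.1).indicator 1) x ≤
        1100 * n * L j * r j + δ)
    (hou : IntegrableOn (ou S t f τ (r 0) s) (Ioo (le S t s) (ri S t s)))
    (hou' : ∫ x in Ioo (le S t s) (ri S t s), ou S t f τ (r 0) s x ≤ δ)
    (hlow : ∫ x in Ioo (le S t s) (ri S t s), {x | 0 < f s.1 x ^ 2 * ch S t s.1 x ∧
      f s.1 x ^ 2 * ch S t s.1 x < a}.indicator (1 : ℝ → ℝ) x ≤ δ₂) :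
    ∫ x in Ioo (le S t s) (ri S t s), ‖ph S t f τ K r θ s x - uu τ f s.1 x‖ ≤
      2 * δ + 3 * δ₂ + 2 / a * (1100 * n * (Λ * ρ) * 4 ^ K + δ) := by
  have hr0 : ∀ j, 0 < r j := fun j => by rw [hr]; positivity
  have hd := C.dns hs
  have hK' : (0 : ℝ) < K := by exact_mod_cast hK
  set I := Ioo (le S t s) (ri S t s) with hI
  set h : ℝ → ℝ := fun x => f s.1 x ^ 2 * ch S t s.1 x with hh
  have hhm : Measurable h := (hd.meas.pow_const 2).mul (hW.meas _)
  have hW0 : 0 ≤ W := zero_le_one.trans hW.one_le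
  have hwb : ∀ x ∈ I, 0 ≤ ch S t s.1 x ∧ ch S t s.1 x ≤ W :=
    fun x hx => ⟨hW.nonneg _ _, hW.le s x hx.1 hx.2⟩
  have hhi : IntegrableOn h I := (weight_bound (δ := ∫ x in I, f s.1 x ^ 2) hW0
      (fun x _ => sq_nonneg _) hwb (hW.meas _) hd.sq le_rfl).1
  have hh0 : ∀ x, 0 ≤ h x := fun x => mul_nonneg (sq_nonneg _) (hW.nonneg _ _)
  set A : Set ℝ := {x | 0 < h x ∧ h x < a} with hAset
  have hAm : MeasurableSet A :=
    (measurableSet_lt measurable_const hhm).inter (measurableSet_lt hhm measurable_const)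
  have hAi : IntegrableOn (A.indicator (1 : ℝ → ℝ)) I :=
    IntegrableOn.indicator (integrableOn_const (by simp [hI])) hAm
  have hdi : ∀ j, IntegrableOn (fun x => h x * dj S t f (r j) (θ j) s x) I := by
    intro j
    refine Integrable.mono' (hhi.const_mul (3 / 2)) (hhi.aestronglyMeasurable.mul
      (C.dj_meas hA hs (hr0 j) (hθ j).meas)) ?_
    refine (ae_restrict_iff' measurableSet_Ioo).2 (ae_of_all _ fun x hx => ?_)
    have h1 := C.dj_nonneg (hr0 j) hx.1 hx.2 (θ j)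
    have h2 := C.dj_le (hr0 j) hx.1 hx.2 (θ j)
    rw [Real.norm_eq_abs, abs_of_nonneg (mul_nonneg (hh0 x) h1), mul_comm]
    exact mul_le_mul_of_nonneg_right h2 (hh0 x)
  have hpt : ∀ x ∈ I, ‖ph S t f τ K r θ s x - uu τ f s.1 x‖ ≤ 2 * ou S t f τ (r 0) s x +
      2 / K * ∑ j ∈ Finset.range K, (3 / 2 * A.indicator (1 : ℝ → ℝ) x +
        1 / a * (h x * dj S t f (r j) (θ j) s x)) := by
    intro x hx
    refine (C.ph_sub hK hθ hr0 hx.1 hx.2).trans ?_
    refine add_le_add le_rfl (mul_le_mul_of_nonneg_left (Finset.sum_le_sum fun j _ => ?_)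
      (by positivity))
    have h1 := C.dj_nonneg (hr0 j) hx.1 hx.2 (θ j)
    have h2 := C.dj_le (hr0 j) hx.1 hx.2 (θ j)
    have h3 : 0 ≤ A.indicator (1 : ℝ → ℝ) x := Set.indicator_nonneg (fun _ _ => zero_le_one) x
    have h4 : 0 ≤ 1 / a * (h x * dj S t f (r j) (θ j) s x) := by
      have := hh0 x
      positivity
    split_ifs with hf
    · have h5 : 0 < h x := mul_pos (pow_pos hf 2) (hW.pos s x hx.1 hx.2)
      by_cases h6 : h x < a
      · have h7 : x ∈ A := ⟨h5, h6⟩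
        rw [Set.indicator_of_mem h7]
        simp only [Pi.one_apply]
        linarith
      · have h8 : 1 ≤ 1 / a * h x := by
          rw [one_div, inv_mul_eq_div, one_le_div ha]
          exact not_lt.1 h6
        have h9 : dj S t f (r j) (θ j) s x ≤ 1 / a * (h x * dj S t f (r j) (θ j) s x) := by
          rw [← mul_assoc]
          exact le_mul_of_one_le_left h1 h8
        linarith
    · linarith
  have hJ : ∀ j ∈ Finset.range K, IntegrableOn (fun x => 3 / 2 * A.indicator (1 : ℝ → ℝ) x +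
      1 / a * (h x * dj S t f (r j) (θ j) s x)) I := fun j _ =>
    (hAi.const_mul _).add ((hdi j).const_mul _)
  have hJs : IntegrableOn (fun x => ∑ j ∈ Finset.range K, (3 / 2 * A.indicator (1 : ℝ → ℝ) x +
      1 / a * (h x * dj S t f (r j) (θ j) s x))) I := integrable_finsetSum _ hJ
  have hRi : IntegrableOn (fun x => 2 * ou S t f τ (r 0) s x +
      2 / K * ∑ j ∈ Finset.range K, (3 / 2 * A.indicator (1 : ℝ → ℝ) x +
        1 / a * (h x * dj S t f (r j) (θ j) s x))) I :=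
    (hou.const_mul 2).add (hJs.const_mul _)
  calc ∫ x in I, ‖ph S t f τ K r θ s x - uu τ f s.1 x‖
      ≤ ∫ x in I, (2 * ou S t f τ (r 0) s x +
      2 / K * ∑ j ∈ Finset.range K, (3 / 2 * A.indicator (1 : ℝ → ℝ) x +
        1 / a * (h x * dj S t f (r j) (θ j) s x))) := by
        refine integral_mono_of_nonneg (ae_of_all _ fun x => norm_nonneg _) hRi ?_
        exact (ae_restrict_iff' measurableSet_Ioo).2 (ae_of_all _ hpt)
    _ = 2 * (∫ x in I, ou S t f τ (r 0) s x) + 2 / K * ∑ j ∈ Finset.range K,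
          (3 / 2 * (∫ x in I, A.indicator (1 : ℝ → ℝ) x) +
            1 / a * ∫ x in I, h x * dj S t f (r j) (θ j) s x) := by
        rw [integral_add (hou.const_mul 2) (hJs.const_mul _),
          integral_const_mul, integral_const_mul, integral_finsetSum _ hJ]
        congr 2
        refine Finset.sum_congr rfl fun j _ => ?_
        rw [integral_add (hAi.const_mul _) ((hdi j).const_mul _), integral_const_mul,
          integral_const_mul]
    _ ≤ 2 * δ + 2 / K * ∑ j ∈ Finset.range K,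
          (3 / 2 * δ₂ + 1 / a * (1100 * n * (Λ * ρ) * 4 ^ K + δ)) := by
        refine add_le_add (by linarith) (mul_le_mul_of_nonneg_left
          (Finset.sum_le_sum fun j hj => ?_) (by positivity))
        have hj' := Finset.mem_range.1 hj
        refine add_le_add (by linarith) (mul_le_mul_of_nonneg_left ?_ (by positivity))
        refine (hV j hj').trans ?_
        have e1 : 1100 * (n : ℝ) * L j * r j = 1100 * n * (Λ * ρ) * 4 ^ j := by
          rw [hL, hr, show (4 : ℝ) = 2 * 2 by norm_num, mul_pow]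
          ring
        rw [e1]
        have h4 : (4 : ℝ) ^ j ≤ 4 ^ K := pow_le_pow_right₀ (by norm_num) hj'.le
        have : 1100 * (n : ℝ) * (Λ * ρ) * 4 ^ j ≤ 1100 * n * (Λ * ρ) * 4 ^ K :=
          mul_le_mul_of_nonneg_left h4 (by positivity)
        linarith
    _ = 2 * δ + 3 * δ₂ + 2 / a * (1100 * n * (Λ * ρ) * 4 ^ K + δ) := by
        rw [Finset.sum_const, Finset.card_range, nsmul_eq_mul]
        field_simp
        ring

end Pool.Agent.H79.BQ
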