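import Pool.Agent.H79.BQ.Pw

/-!
# Quasimodes: the section on the sides is Lipschitz and compatible with the gluings
-/

set_option autoImplicit false

namespace Pool.Agent.H79.BQ

open MeasureTheory Set Filter Topology Pool.Agent.H79.GT Pool.Agent.H44.DU

variable {n : ℕ} {S : Surf n} {t : ℝ} {f : Fin n → ℝ → ℝ}

variable (C : Ctx S t f)

include C

lemma Ctx.ph_glue {s : Side n} {τ : ℝ} {K : ℕ} {r L : ℕ → ℝ} {x : ℝ}
    {θ : ℕ → Side n → ℝ → ℝ}
    (hθ : ∀ j, Lay S t f (r j) (L j) (θ j)) (hr : ∀ j, 0 < r j) :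
    ph S t f τ K r θ (S.gl s) (S.mv t s x) = S.zt τ s * ph S t f τ K r θ s x := by
  obtain ⟨-, e2, -, -, e5, e6⟩ := C.eqv n S t f C.ld C.si
  have hiff : (le S t (S.gl s) < S.mv t s x ∧ S.mv t s x < ri S t (S.gl s)) ↔
      (le S t s < x ∧ x < ri S t s) := by
    rw [(e2 s).1, (e2 s).2, S.mv_lt_iff, S.mv_lt_iff]
  unfold ph
  by_cases h : le S t s < x ∧ x < ri S t s
  · rw [if_pos h, if_pos (hiff.2 h)]
    have e7 : us S t f τ (r 0) (S.gl s) (S.mv t s x) = S.zt τ s * us S t f τ (r 0) s x := by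
      unfold us
      exact e5 s (r 0) x (S.zt τ s) _ _ (hr 0) h.1 h.2 (e6 s τ)
    have e8 : ki S t f K r θ (S.gl s) (S.mv t s x) = ki S t f K r θ s x := by
      unfold ki
      congr 1
      refine Finset.sum_congr rfl fun j _ => ?_
      unfold ps
      have := e5 s (r j) x 1 (fun y => (θ j s y : ℂ)) (fun y => (θ j (S.gl s) y : ℂ)) (hr j)
        h.1 h.2 (ae_of_all _ fun y hy1 hy2 => by rw [(hθ j).glue s y hy1 hy2, one_mul])
      rw [this, one_mul]
    rw [e7, e8]
    ring
  · rw [if_neg h, if_neg (fun h' => h (hiff.1 h')), mul_zero]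

lemma Ctx.ph_lip (hZ : T_ZON) {s : Side n} (hs : le S t s < ri S t s) {τ : ℝ} {K : ℕ}
    {r L : ℕ → ℝ} {θ : ℕ → Side n → ℝ → ℝ}
    (hθ : ∀ j, Lay S t f (r j) (L j) (θ j)) (hr : ∀ j, 0 < r j) (hL : ∀ j, 0 < L j)
    (hm : ∀ j, r 0 ≤ r j) :
    ∃ d > 0, ∃ c : ℝ, 0 ≤ c ∧
      (∀ x, le S t s ≤ x → x ≤ ri S t s → (x ≤ le S t s + d ∨ ri S t s - d ≤ x) →
        ph S t f τ K r θ s x = 0) ∧
      ∀ x ∈ Icc (le S t s) (ri S t s), ∀ y ∈ Icc (le S t s) (ri S t s),
        ‖ph S t f τ K r θ s x - ph S t f τ K r θ s y‖ ≤ c * |x - y| := by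
  have hd := C.dns hs
  have hpc := dns_cont hd
  set p := S.pf t f s.1 with hp
  -- the zones
  obtain ⟨d1, hd1, hd1'⟩ : ∃ d > 0, ∀ x ∈ Icc (le S t s) (ri S t s), x ≤ le S t s + d →
      p x - p (le S t s) ≤ r 0 := by
    have h1 := hpc (le S t s) (left_mem_Icc.2 hs.le)
    rw [Metric.continuousWithinAt_iff] at h1
    obtain ⟨δ, hδ, h2⟩ := h1 (r 0) (hr 0)
    refine ⟨δ / 2, by positivity, fun x hx hx' => ?_⟩
    have h3 := h2 hx (by
      rw [Real.dist_eq, abs_of_nonneg (by linarith [hx.1])]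
      linarith)
    rw [Real.dist_eq] at h3
    exact (le_abs_self _).trans h3.le
  obtain ⟨d2, hd2, hd2'⟩ : ∃ d > 0, ∀ x ∈ Icc (le S t s) (ri S t s), ri S t s - d ≤ x →
      p (ri S t s) - p x ≤ r 0 := by
    have h1 := hpc (ri S t s) (right_mem_Icc.2 hs.le)
    rw [Metric.continuousWithinAt_iff] at h1
    obtain ⟨δ, hδ, h2⟩ := h1 (r 0) (hr 0)
    refine ⟨δ / 2, by positivity, fun x hx hx' => ?_⟩
    have h3 := h2 hx (by
      rw [Real.dist_eq, abs_sub_comm, abs_of_nonneg (by linarith [hx.2])]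
      linarith)
    rw [Real.dist_eq, abs_sub_comm] at h3
    exact (le_abs_self _).trans h3.le
  set d := min (min d1 d2) ((ri S t s - le S t s) / 4) with hdd
  have hd0 : 0 < d := lt_min (lt_min hd1 hd2) (by linarith)
  have hdd1 : d ≤ d1 := (min_le_left _ _).trans (min_le_left _ _)
  have hdd2 : d ≤ d2 := (min_le_left _ _).trans (min_le_right _ _)
  have hdd3 : d ≤ (ri S t s - le S t s) / 4 := min_le_right _ _
  have hzero : ∀ x, le S t s ≤ x → x ≤ ri S t s → (x ≤ le S t s + d ∨ ri S t s - d ≤ x) →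
      ph S t f τ K r θ s x = 0 := by
    intro x hx1 hx2 hx3
    unfold ph
    split_ifs with h
    · rw [C.ki_zero hZ hθ hr hL hm h.1 h.2, zero_mul]
      rcases hx3 with hx3 | hx3
      · left; exact hd1' x ⟨hx1, hx2⟩ (by linarith)
      · right; exact hd2' x ⟨hx1, hx2⟩ (by linarith)
    · rfl
  -- the middle part
  set M := Icc (le S t s + d) (ri S t s - d) with hM
  have hMne : M.Nonempty := nonempty_Icc.2 (by linarith)
  have hMo : ∀ x ∈ M, le S t s < x ∧ x < ri S t s := fun x hx =>
    ⟨by linarith [hx.1], by linarith [hx.2]⟩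
  have hmin : ∀ j, ∃ c > 0, ∀ x ∈ M, c ≤ Rd S t f (r j) s x := by
    intro j
    have hcont : Continuous (Rd S t f (r j) s) := by
      have : LipschitzWith 1 (Rd S t f (r j) s) := LipschitzWith.of_dist_le_mul fun x y => by
        rw [Real.dist_eq, Real.dist_eq, NNReal.coe_one, one_mul]
        exact C.rlip hs (hr j) x y
      exact this.continuous
    obtain ⟨x0, hx0, hx0'⟩ := isCompact_Icc.exists_isMinOn hMne hcont.continuousOn
    exact ⟨Rd S t f (r j) s x0, C.rpos (hr j) (hMo x0 hx0).1 (hMo x0 hx0).2,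
      fun x hx => hx0' hx⟩
  choose c hc hc' using hmin
  set c0 := (Finset.range (K + 1)).inf' ⟨0, by simp⟩ c with hc0
  have hc0p : 0 < c0 := (Finset.lt_inf'_iff _).2 fun j _ => hc j
  have hc0le : ∀ j < K + 1, ∀ x ∈ M, c0 ≤ Rd S t f (r j) s x := fun j hj x hx =>
    (Finset.inf'_le _ (Finset.mem_range.2 hj)).trans (hc' j x hx)
  have hMid : ∀ x ∈ M, ∀ y ∈ M,
      ‖ph S t f τ K r θ s y - ph S t f τ K r θ s x‖ ≤ 72 / c0 * |y - x| := by
    intro x hx y hy
    obtain ⟨x1, x2⟩ := hMo x hx
    obtain ⟨y1, y2⟩ := hMo y hy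
    by_cases hxy : |y - x| ≤ c0 / 8
    · have e1 : ph S t f τ K r θ s x = ki S t f K r θ s x * us S t f τ (r 0) s x := by
        unfold ph; exact if_pos ⟨x1, x2⟩
      have e2 : ph S t f τ K r θ s y = ki S t f K r θ s y * us S t f τ (r 0) s y := by
        unfold ph; exact if_pos ⟨y1, y2⟩
      have hps : ∀ j ∈ Finset.range K,
          ‖ps S t f (r j) (θ j) s y - ps S t f (r j) (θ j) s x‖ ≤ 24 / c0 * |y - x| := by
        intro j hj
        have hj' := Finset.mem_range.1 hj
        have h3 := hc0le j (by omega) x hx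
        have h4 := (C.derθ (hθ j) (hr j) x1 x2).2.2 y (hxy.trans (by linarith))
        refine h4.trans ?_
        have h5 := C.dj_le (hr j) x1 x2 (θ j)
        have h6 := C.dj_nonneg (hr j) x1 x2 (θ j)
        have h7 : |y - x| / Rd S t f (r j) s x ≤ |y - x| / c0 :=
          div_le_div_of_nonneg_left (abs_nonneg _) hc0p h3
        calc 16 * (|y - x| / Rd S t f (r j) s x) * dj S t f (r j) (θ j) s x
            ≤ 16 * (|y - x| / c0) * (3 / 2) := by
              refine mul_le_mul (by linarith) h5 h6 (by positivity)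
          _ = _ := by ring
      have hki : ‖ki S t f K r θ s y - ki S t f K r θ s x‖ ≤ 24 / c0 * |y - x| := by
        have e3 : ki S t f K r θ s y - ki S t f K r θ s x = (K : ℂ)⁻¹ *
            ∑ j ∈ Finset.range K, (ps S t f (r j) (θ j) s y - ps S t f (r j) (θ j) s x) := by
          unfold ki
          rw [Finset.sum_sub_distrib]
          ring
        rw [e3, norm_mul, norm_inv, Complex.norm_natCast]
        rcases Nat.eq_zero_or_pos K with hK | hK
        · subst hK; simp; positivity
        · have hK' : (0 : ℝ) < K := by exact_mod_cast hK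
          rw [inv_mul_le_iff₀ hK']
          refine (norm_sum_le _ _).trans ((Finset.sum_le_sum hps).trans (le_of_eq ?_))
          simp
      have hus : ‖us S t f τ (r 0) s y - us S t f τ (r 0) s x‖ ≤ 48 / c0 * |y - x| := by
        have h3 := hc0le 0 (by omega) x hx
        refine ((C.deru (hr 0) x1 x2).2.2 y (hxy.trans (by linarith))).trans ?_
        have h7 : |y - x| / Rd S t f (r 0) s x ≤ |y - x| / c0 :=
          div_le_div_of_nonneg_left (abs_nonneg _) hc0p h3
        calc 16 * (|y - x| / Rd S t f (r 0) s x) * ou S t f τ (r 0) s x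
            ≤ 16 * (|y - x| / c0) * 3 :=
              mul_le_mul (by linarith) (C.ou_le (hr 0) x1 x2) (C.ou_nonneg (hr 0) x1 x2)
                (by positivity)
          _ = _ := by ring
      rw [e1, e2]
      have e3 : ki S t f K r θ s y * us S t f τ (r 0) s y -
          ki S t f K r θ s x * us S t f τ (r 0) s x =
          (ki S t f K r θ s y - ki S t f K r θ s x) * us S t f τ (r 0) s x +
            ki S t f K r θ s y * (us S t f τ (r 0) s y - us S t f τ (r 0) s x) := by ring
      rw [e3]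
      calc ‖(ki S t f K r θ s y - ki S t f K r θ s x) * us S t f τ (r 0) s x +
            ki S t f K r θ s y * (us S t f τ (r 0) s y - us S t f τ (r 0) s x)‖
          ≤ 24 / c0 * |y - x| + 48 / c0 * |y - x| := by
            refine (norm_add_le _ _).trans (add_le_add ?_ ?_)
            · rw [norm_mul]
              exact (mul_le_of_le_one_right (norm_nonneg _)
                (C.deru (hr 0) x1 x2).1).trans hki
            · rw [norm_mul]
              exact (mul_le_of_le_one_left (norm_nonneg _) (C.norm_ki hθ hr y1 y2)).trans hus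
        _ = _ := by ring
    · have h3 : ‖ph S t f τ K r θ s y - ph S t f τ K r θ s x‖ ≤ 2 := by
        have h4 := C.norm_ph (s := s) (τ := τ) (K := K) (x := x) hθ hr
        have h5 := C.norm_ph (s := s) (τ := τ) (K := K) (x := y) hθ hr
        have h6 := norm_sub_le (ph S t f τ K r θ s y) (ph S t f τ K r θ s x)
        linarith
      refine h3.trans ?_
      rw [div_mul_eq_mul_div, le_div_iff₀ hc0p]
      linarith [not_le.1 hxy]
  -- the clamp
  set g : ℝ → ℝ := fun x => max (le S t s + d) (min x (ri S t s - d)) with hg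
  have hgM : ∀ x, g x ∈ M := fun x =>
    ⟨le_max_left _ _, max_le (by linarith) (min_le_right _ _)⟩
  have hgl : ∀ x y, |g x - g y| ≤ |x - y| := fun x y => by
    simp only [hg]
    calc |max (le S t s + d) (min x (ri S t s - d)) - max (le S t s + d) (min y (ri S t s - d))|
        ≤ |min x (ri S t s - d) - min y (ri S t s - d)| := by
          have := abs_max_sub_max_le_max (le S t s + d) (min x (ri S t s - d))
            (le S t s + d) (min y (ri S t s - d))
          simpa using this
      _ ≤ |x - y| := by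
          have := abs_min_sub_min_le_max x (ri S t s - d) y (ri S t s - d)
          simpa using this
  have hgp : ∀ x ∈ Icc (le S t s) (ri S t s),
      ph S t f τ K r θ s x = ph S t f τ K r θ s (g x) := by
    intro x hx
    rcases le_total x (le S t s + d) with h | h
    · have e1 : g x = le S t s + d := by
        simp only [hg]
        rw [min_eq_left (by linarith), max_eq_left h]
      rw [e1, hzero x hx.1 hx.2 (Or.inl h), hzero _ (by linarith) (by linarith) (Or.inl le_rfl)]
    · rcases le_total (ri S t s - d) x with h' | h'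
      · have e1 : g x = ri S t s - d := by
          simp only [hg]
          rw [min_eq_right h', max_eq_right (by linarith)]
        rw [e1, hzero x hx.1 hx.2 (Or.inr h'), hzero _ (by linarith) (by linarith)
          (Or.inr le_rfl)]
      · have e1 : g x = x := by
          simp only [hg]
          rw [min_eq_left h', max_eq_right h]
        rw [e1]
  refine ⟨d, hd0, 72 / c0, by positivity, hzero, fun x hx y hy => ?_⟩
  rw [hgp x hx, hgp y hy]
  refine (hMid (g y) (hgM y) (g x) (hgM x)).trans ?_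
  exact mul_le_mul_of_nonneg_left (hgl x y) (by positivity)

/-- The section on all the sides. -/
lemma Ctx.ph_lip_all (hZ : T_ZON) {τ : ℝ} {K : ℕ}
    {r L : ℕ → ℝ} {θ : ℕ → Side n → ℝ → ℝ}
    (hθ : ∀ j, Lay S t f (r j) (L j) (θ j)) (hr : ∀ j, 0 < r j) (hL : ∀ j, 0 < L j)
    (hm : ∀ j, r 0 ≤ r j) :
    ∃ (d : ℝ) (c : NNReal), 0 < d ∧
      (∀ s, LipschitzOnWith c (ph S t f τ K r θ s) (Icc (le S t s) (ri S t s))) ∧
      ∀ s x, le S t s ≤ x → x ≤ ri S t s → (x ≤ le S t s + d ∨ ri S t s - d ≤ x) →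
        ph S t f τ K r θ s x = 0 := by
  classical
  have hall : ∀ s : Side n, ∃ d > 0, ∃ c : ℝ, 0 ≤ c ∧
      (∀ x, le S t s ≤ x → x ≤ ri S t s → (x ≤ le S t s + d ∨ ri S t s - d ≤ x) →
        ph S t f τ K r θ s x = 0) ∧
      ∀ x ∈ Icc (le S t s) (ri S t s), ∀ y ∈ Icc (le S t s) (ri S t s),
        ‖ph S t f τ K r θ s x - ph S t f τ K r θ s y‖ ≤ c * |x - y| := by
    intro s
    by_cases hs : le S t s < ri S t s
    · exact C.ph_lip hZ hs hθ hr hL hm
    · have h0 : ∀ x, ph S t f τ K r θ s x = 0 := fun x => by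
        unfold ph
        exact if_neg fun h => hs (h.1.trans h.2)
      exact ⟨1, one_pos, 0, le_rfl, fun x _ _ _ => h0 x, fun x _ y _ => by simp [h0]⟩
  choose d hd c hc h1 h2 using hall
  rcases isEmpty_or_nonempty (Side n) with hE | hE
  · exact ⟨1, 0, one_pos, fun s => hE.elim s, fun s => hE.elim s⟩
  · refine ⟨Finset.univ.inf' Finset.univ_nonempty d, ⟨∑ s, c s, Finset.sum_nonneg fun s _ =>
      hc s⟩, (Finset.lt_inf'_iff _).2 fun s _ => hd s, fun s => ?_, fun s x hx1 hx2 hx3 => ?_⟩
    · refine LipschitzOnWith.of_dist_le_mul fun x hx y hy => ?_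
      rw [dist_eq_norm, Real.dist_eq]
      refine (h2 s x hx y hy).trans (mul_le_mul_of_nonneg_right ?_ (abs_nonneg _))
      exact Finset.single_le_sum (fun s _ => hc s) (Finset.mem_univ s)
    · have h3 : Finset.univ.inf' Finset.univ_nonempty d ≤ d s :=
        Finset.inf'_le _ (Finset.mem_univ s)
      refine h1 s x hx1 hx2 (hx3.imp (fun h => ?_) fun h => ?_) <;> linarith

end Pool.Agent.H79.BQ
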