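import Pool.Agent.H79.BQ.In

/-!
# Quasimodes: the majorants
-/

set_option autoImplicit false

namespace Pool.Agent.H79.BQ

open MeasureTheory Set Filter Topology Pool.Agent.H79.GT Pool.Agent.H44.DU

variable {n : ℕ} {S : Surf n} {t : ℝ} {f : Fin n → ℝ → ℝ}

/-- The coordinates of a side at which the mass distance to an end is one of the values `r j`. -/
lemma ae_ne {p : ℝ → ℝ} {l u : ℝ} (hinc : ∀ x y, l ≤ x → x < y → y ≤ u → p x < p y)
    (r : ℕ → ℝ) : ∀ᵐ x : ℝ, l < x → x < u →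
      (∀ j, p x - p l ≠ r j) ∧ ∀ j, p u - p x ≠ r j := by
  have hinj : ∀ x y, l < x → x < u → l < y → y < u → p x = p y → x = y := by
    intro x y hx hx' hy hy' hxy
    rcases lt_trichotomy x y with h | h | h
    · have := hinc x y hx.le h hy'.le
      linarith
    · exact h
    · have := hinc y x hy.le h hx'.le
      linarith
  have h1 : ∀ c : ℝ, {x | l < x ∧ x < u ∧ p x = c}.Subsingleton := fun c x hx y hy =>
    hinj x y hx.1 hx.2.1 hy.1 hy.2.1 (hx.2.2.trans hy.2.2.symm)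
  have h2 : ∀ j, ∀ᵐ x : ℝ, l < x → x < u → p x - p l ≠ r j := by
    intro j
    have : volume {x | l < x ∧ x < u ∧ p x = p l + r j} = 0 := (h1 _).measure_zero _
    have h3 := measure_eq_zero_iff_ae_notMem.1 this
    filter_upwards [h3] with x hx hx1 hx2 hx3
    exact hx ⟨hx1, hx2, by linarith⟩
  have h4 : ∀ j, ∀ᵐ x : ℝ, l < x → x < u → p u - p x ≠ r j := by
    intro j
    have : volume {x | l < x ∧ x < u ∧ p x = p u - r j} = 0 := (h1 _).measure_zero _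
    have h3 := measure_eq_zero_iff_ae_notMem.1 this
    filter_upwards [h3] with x hx hx1 hx2 hx3
    exact hx ⟨hx1, hx2, by linarith⟩
  filter_upwards [ae_all_iff.2 h2, ae_all_iff.2 h4] with x hx hx' h5 h6
  exact ⟨fun j => hx j h5 h6, fun j => hx' j h5 h6⟩

/-- The integral of the sum of the functions of the sides of a triangle. -/
lemma tri_sum (hP : T_PART) (S : Surf n) (t : ℝ) (c : ℝ) (g : Side n → ℝ → ℝ)
    (hg : ∀ s, IntegrableOn (g s) (Ioo (le S t s) (ri S t s))) (i : Fin n) :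
    IntegrableOn (fun x => c * ∑ k : Fin 3,
      (Ioo (le S t (i, k)) (ri S t (i, k))).indicator (g (i, k)) x)
      (Ioo (S.xl t i) (S.xr t i)) ∧
    ∫ x in Ioo (S.xl t i) (S.xr t i), (c * ∑ k : Fin 3,
      (Ioo (le S t (i, k)) (ri S t (i, k))).indicator (g (i, k)) x) =
      c * ∑ k : Fin 3, ∫ x in Ioo (le S t (i, k)) (ri S t (i, k)), g (i, k) x := by
  have hsub : ∀ k : Fin 3, Ioo (le S t (i, k)) (ri S t (i, k)) ⊆
      Ioo (S.xl t i) (S.xr t i) := by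
    intro k
    have := (hP n S t).2.2.1 (i, k)
    exact Ioo_subset_Ioo this.1 this.2.2
  have hi : ∀ k ∈ (Finset.univ : Finset (Fin 3)), IntegrableOn
      ((Ioo (le S t (i, k)) (ri S t (i, k))).indicator (g (i, k)))
      (Ioo (S.xl t i) (S.xr t i)) := by
    intro k _
    have h1 : Integrable ((Ioo (le S t (i, k)) (ri S t (i, k))).indicator (g (i, k))) :=
      (integrable_indicator_iff measurableSet_Ioo).2 (hg (i, k))
    exact h1.integrableOn
  have his : IntegrableOn (fun x => ∑ k : Fin 3,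
      (Ioo (le S t (i, k)) (ri S t (i, k))).indicator (g (i, k)) x)
      (Ioo (S.xl t i) (S.xr t i)) := integrable_finsetSum _ hi
  refine ⟨his.const_mul c, ?_⟩
  rw [integral_const_mul, integral_finsetSum _ hi]
  congr 1
  refine Finset.sum_congr rfl fun k _ => ?_
  rw [setIntegral_indicator measurableSet_Ioo, inter_eq_self_of_subset_right (hsub k)]

lemma sum_sides (g : Side n → ℝ) {b : ℝ} (h : ∀ s, g s ≤ b) : ∑ s, g s ≤ 3 * n * b := by
  refine (Finset.sum_le_sum fun s _ => h s).trans (le_of_eq ?_)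
  rw [Finset.sum_const, Finset.card_univ, Fintype.card_prod, Fintype.card_fin, Fintype.card_fin,
    nsmul_eq_mul]
  push_cast
  ring

lemma sum_pairs (g : Side n → ℝ) : ∑ i : Fin n, ∑ k : Fin 3, g (i, k) = ∑ s, g s :=
  (Fintype.sum_prod_type g).symm

/-- The bound of the oscillation of the unitary section. -/
lemma Ctx.hu_int (C : Ctx S t f) {W : ℝ} (hW : Chd S t W) {s : Side n} {τ r δ : ℝ}
    (hr : 0 < r)
    {e : ℝ → ℝ} (ho : IntegrableOn (ou S t f τ r s) (Ioo (le S t s) (ri S t s)))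
    (h1 : IntegrableOn (fun x => f s.1 x ^ 2 * ou S t f τ r s x ^ 2)
      (Ioo (le S t s) (ri S t s)))
    (h2 : ∫ x in Ioo (le S t s) (ri S t s), f s.1 x ^ 2 * ou S t f τ r s x ^ 2 ≤ δ)
    (hem : Measurable e) (h3 : IntegrableOn (fun x => e x ^ 2) (Ioo (le S t s) (ri S t s)))
    (h4 : ∫ x in Ioo (le S t s) (ri S t s), e x ^ 2 ≤ δ) :
    IntegrableOn (fun x => ((4 * f s.1 x + e x) ^ 2 * ou S t f τ r s x ^ 2) *
      ch S t s.1 x) (Ioo (le S t s) (ri S t s)) ∧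
    ∫ x in Ioo (le S t s) (ri S t s), ((4 * f s.1 x + e x) ^ 2 * ou S t f τ r s x ^ 2) *
      ch S t s.1 x ≤ W * (50 * δ) := by
  have hF : IntegrableOn (fun x => 32 * (f s.1 x ^ 2 * ou S t f τ r s x ^ 2) +
      18 * e x ^ 2) (Ioo (le S t s) (ri S t s)) :=
    (h1.const_mul 32).add (h3.const_mul 18)
  have hpt : ∀ x ∈ Ioo (le S t s) (ri S t s),
      (4 * f s.1 x + e x) ^ 2 * ou S t f τ r s x ^ 2 ≤
      32 * (f s.1 x ^ 2 * ou S t f τ r s x ^ 2) + 18 * e x ^ 2 := by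
    intro x hx
    have o1 := C.ou_nonneg (τ := τ) hr hx.1 hx.2
    have o2 := C.ou_le (τ := τ) hr hx.1 hx.2
    set o := ou S t f τ r s x
    have h3 : (4 * f s.1 x + e x) ^ 2 ≤ 32 * f s.1 x ^ 2 + 2 * e x ^ 2 := by
      nlinarith [sq_nonneg (4 * f s.1 x - e x)]
    have h4 : o ^ 2 ≤ 9 := by nlinarith
    calc (4 * f s.1 x + e x) ^ 2 * o ^ 2 ≤
          (32 * f s.1 x ^ 2 + 2 * e x ^ 2) * o ^ 2 :=
          mul_le_mul_of_nonneg_right h3 (sq_nonneg _)
      _ = 32 * (f s.1 x ^ 2 * o ^ 2) + 2 * e x ^ 2 * o ^ 2 := by ring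
      _ ≤ 32 * (f s.1 x ^ 2 * o ^ 2) + 2 * e x ^ 2 * 9 :=
          add_le_add le_rfl (mul_le_mul_of_nonneg_left h4 (by positivity))
      _ = _ := by ring
  have hGi : IntegrableOn (fun x => (4 * f s.1 x + e x) ^ 2 *
      ou S t f τ r s x ^ 2) (Ioo (le S t s) (ri S t s)) := by
    refine Integrable.mono' hF (((((C.ld.meas s.1).const_mul 4).add
      hem).pow_const 2).aestronglyMeasurable.mul (ho.aestronglyMeasurable.pow 2)) ?_
    refine (ae_restrict_iff' measurableSet_Ioo).2 (ae_of_all _ fun x hx => ?_)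
    rw [Real.norm_eq_abs, abs_of_nonneg (by positivity)]
    exact hpt x hx
  refine weight_bound (zero_le_one.trans hW.one_le) (fun x _ => by positivity)
    (fun x hx => ⟨hW.nonneg _ _, hW.le s x hx.1 hx.2⟩) (hW.meas _) hGi ?_
  calc ∫ x in Ioo (le S t s) (ri S t s), (4 * f s.1 x + e x) ^ 2 * ou S t f τ r s x ^ 2
      ≤ ∫ x in Ioo (le S t s) (ri S t s),
          (32 * (f s.1 x ^ 2 * ou S t f τ r s x ^ 2) + 18 * e x ^ 2) :=
        setIntegral_mono_on hGi hF measurableSet_Ioo hpt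
    _ = 32 * (∫ x in Ioo (le S t s) (ri S t s), f s.1 x ^ 2 * ou S t f τ r s x ^ 2) +
          18 * ∫ x in Ioo (le S t s) (ri S t s), e x ^ 2 := by
        rw [integral_add (h1.const_mul 32) (h3.const_mul 18),
          integral_const_mul, integral_const_mul]
    _ ≤ 32 * δ + 18 * δ := add_le_add (by linarith) (by linarith)
    _ = 50 * δ := by ring

/-- The majorant of the change along the leaves. -/
lemma Ctx.xmaj (C : Ctx S t f) (hZ : T_ZON) (hT : T_TRI) {W : ℝ} (hW : Chd S t W)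
    {s s' : Side n} {τ ρ Λ : ℝ} {K : ℕ} (hK : 0 < K) {r L : ℕ → ℝ} {x : ℝ}
    {θ : ℕ → Side n → ℝ → ℝ} (hρ : 0 < ρ) (hΛ : 0 < Λ) (hr : ∀ j, r j = 2 ^ j * ρ)
    (hL : ∀ j, L j = 2 ^ j * Λ) (hθ : ∀ j, Lay S t f (r j) (L j) (θ j))
    (hss : s.1 = s'.1) (hx1 : S.InI t s x) (hx2 : S.InJ t s' x) :
    ‖ph S t f τ K r θ s x - ph S t f τ K r θ s' x‖ ^ 2 ≤ ch S t s.1 x *
      (32 / (K ^ 2 * Λ ^ 2) * ∑ k : Fin 3,
        (Ioo (le S t (s.1, k)) (ri S t (s.1, k))).indicator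
          (fun y => hx S t f K r θ (s.1, k) y ^ 2 * ch S t s.1 y) x) := by
  classical
  have hKp : (0 : ℝ) < K := by exact_mod_cast hK
  obtain ⟨a1, a2⟩ := ((C.part n S t).2.1 s x).1 (Or.inl hx1)
  obtain ⟨b1, b2⟩ := ((C.part n S t).2.1 s' x).1 (Or.inr hx2)
  have h3 := C.xb hZ hT (τ := τ) (K := K) hρ hΛ hr hL hθ hss hx1 hx2
  have hne : s ≠ s' := by
    rintro rfl
    exact S.not_inI_of_inJ hx2 hx1
  have hch := hW.nonneg s.1 x
  set F : Fin 3 → ℝ := fun k => (Ioo (le S t (s.1, k)) (ri S t (s.1, k))).indicator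
    (fun y => hx S t f K r θ (s.1, k) y ^ 2 * ch S t s.1 y) x with hF
  have hF0 : ∀ k, 0 ≤ F k := fun k =>
    Set.indicator_nonneg (fun y _ => mul_nonneg (sq_nonneg _) (hW.nonneg _ _)) x
  have h4 : hx S t f K r θ s x ^ 2 * ch S t s.1 x + hx S t f K r θ s' x ^ 2 * ch S t s.1 x ≤
      ∑ k : Fin 3, F k := by
    have hk : s.2 ≠ s'.2 := fun h => hne (Prod.ext hss h)
    have h5 : F s.2 = hx S t f K r θ s x ^ 2 * ch S t s.1 x :=
      Set.indicator_of_mem (show x ∈ Ioo (le S t s) (ri S t s) from ⟨a1, a2⟩) _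
    have e6 : (s.1, s'.2) = s' := Prod.ext hss rfl
    have h6 : F s'.2 = hx S t f K r θ s' x ^ 2 * ch S t s.1 x := by
      simp only [hF]
      rw [e6]
      exact Set.indicator_of_mem (show x ∈ Ioo (le S t s') (ri S t s') from ⟨b1, b2⟩) _
    rw [← h5, ← h6, ← Finset.sum_pair (f := F) hk]
    exact Finset.sum_le_sum_of_subset_of_nonneg (Finset.subset_univ _) fun k _ _ => hF0 k
  calc ‖ph S t f τ K r θ s x - ph S t f τ K r θ s' x‖ ^ 2
      ≤ (4 / (K * Λ) * ch S t s.1 x * (hx S t f K r θ s x + hx S t f K r θ s' x)) ^ 2 :=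
        pow_le_pow_left₀ (norm_nonneg _) h3 2
    _ = ch S t s.1 x * (16 / (K ^ 2 * Λ ^ 2) * (ch S t s.1 x *
          (hx S t f K r θ s x + hx S t f K r θ s' x) ^ 2)) := by
        field_simp
        ring
    _ ≤ ch S t s.1 x * (16 / (K ^ 2 * Λ ^ 2) * (2 * (hx S t f K r θ s x ^ 2 * ch S t s.1 x +
          hx S t f K r θ s' x ^ 2 * ch S t s.1 x))) := by
        refine mul_le_mul_of_nonneg_left (mul_le_mul_of_nonneg_left ?_ (by positivity)) hch
        nlinarith [mul_nonneg hch (sq_nonneg (hx S t f K r θ s x - hx S t f K r θ s' x))]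
    _ = ch S t s.1 x * (32 / (K ^ 2 * Λ ^ 2) * (hx S t f K r θ s x ^ 2 * ch S t s.1 x +
          hx S t f K r θ s' x ^ 2 * ch S t s.1 x)) := by ring
    _ ≤ _ := by
        refine mul_le_mul_of_nonneg_left ?_ hch
        exact mul_le_mul_of_nonneg_left h4 (by positivity)

/-- The majorant of the transverse derivative. -/
lemma Ctx.ymaj (C : Ctx S t f) (hZ : T_ZON) {W : ℝ} (hW : Chd S t W) {s : Side n}
    {τ ρ : ℝ} {K : ℕ} (hK : 0 < K) {r L : ℕ → ℝ} {x : ℝ} {θ : ℕ → Side n → ℝ → ℝ}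
    {e : ℕ → ℝ → ℝ} (hρ : 0 < ρ)
    (hr : ∀ j, r j = 2 ^ j * ρ) (hL0 : ∀ j, 0 < L j)
    (hθ : ∀ j, Lay S t f (r j) (L j) (θ j)) (he0 : ∀ j x, 0 ≤ e j x)
    (he : ∀ j ≤ K, ∀ x, le S t s < x → x < ri S t s →
      ¬ Zn (S.pf t f s.1) (le S t s) (ri S t s) (r j) x →
      r j / Rd S t f (r j) s x ≤ 4 * f s.1 x + e j x)
    (h1 : le S t s < x) (h2 : x < ri S t s)
    (hx1 : ∀ j, S.pf t f s.1 x - S.pf t f s.1 (le S t s) ≠ r j)
    (hx2 : ∀ j, S.pf t f s.1 (ri S t s) - S.pf t f s.1 x ≠ r j) :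
    ∃ m : ℝ, 0 ≤ m ∧ m ^ 2 * ch S t s.1 x ≤
      8192 / (K ^ 2 * ρ ^ 2) * (hy S t f K r θ e s x ^ 2 * ch S t s.1 x) +
      512 / ρ ^ 2 * (((4 * f s.1 x + e 0 x) ^ 2 * ou S t f τ (r 0) s x ^ 2) *
        ch S t s.1 x) ∧
      ∀ᶠ x' in 𝓝 x, ‖ph S t f τ K r θ s x' - ph S t f τ K r θ s x‖ ≤ m * |x' - x| := by
  have hKp : (0 : ℝ) < K := by exact_mod_cast hK
  have hr0 : ∀ j, 0 < r j := fun j => by rw [hr]; positivity
  refine ⟨_, ?_, ?_, C.yb hZ (L := L) (τ := τ) hρ hr hL0 hθ (e := e) he0 he h1 h2 hx1 hx2⟩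
  · have h3 := C.ou_nonneg (τ := τ) (hr0 0) h1 h2
    have h4 := he0 0 x
    have h5 := C.ld.nonneg s.1 x
    have h6 : 0 ≤ hy S t f K r θ e s x := by
      refine Finset.sum_nonneg fun j _ => ?_
      have h7 := C.dj_nonneg (hr0 j) h1 h2 (θ j)
      have h8 := he0 j x
      positivity
    positivity
  · set y1 := hy S t f K r θ e s x
    set y2 := (4 * f s.1 x + e 0 x) * ou S t f τ (r 0) s x with hy2
    have hch := hW.nonneg s.1 x
    have e1 : 64 / (K * ρ) * y1 + 16 / ρ * (4 * f s.1 x + e 0 x) *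
        ou S t f τ (r 0) s x = 64 / (K * ρ) * y1 + 16 / ρ * y2 := by rw [hy2]; ring
    have e2 : (4 * f s.1 x + e 0 x) ^ 2 * ou S t f τ (r 0) s x ^ 2 = y2 ^ 2 := by
      rw [hy2]; ring
    rw [e1, e2]
    have h3 : (64 / (K * ρ) * y1 + 16 / ρ * y2) ^ 2 ≤
        2 * (64 / (K * ρ) * y1) ^ 2 + 2 * (16 / ρ * y2) ^ 2 := by
      nlinarith [sq_nonneg (64 / (K * ρ) * y1 - 16 / ρ * y2)]
    calc (64 / (K * ρ) * y1 + 16 / ρ * y2) ^ 2 * ch S t s.1 x
        ≤ (2 * (64 / (K * ρ) * y1) ^ 2 + 2 * (16 / ρ * y2) ^ 2) * ch S t s.1 x :=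
          mul_le_mul_of_nonneg_right h3 hch
      _ = _ := by
          field_simp
          ring

end Pool.Agent.H79.BQ
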