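import Pool.Agent.H79.BQ.Base

/-!
# Quasimodes: pointwise bounds of the two derivatives
-/

set_option autoImplicit false

namespace Pool.Agent.H79.BQ

open MeasureTheory Set Filter Topology Pool.Agent.H79.GT Pool.Agent.H44.DU

variable {n : ℕ} (S : Surf n) (t : ℝ) (f : Fin n → ℝ → ℝ)

/-- The majorant of the change along the leaves. -/
noncomputable def hx (K : ℕ) (r : ℕ → ℝ) (θ : ℕ → Side n → ℝ → ℝ) (s : Side n) (x : ℝ) : ℝ :=
  ∑ j ∈ Finset.range K, (1 / 2 : ℝ) ^ j *
    (f s.1 x * dj S t f (r j) (θ j) s x + oj S t f (r j) s x)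

/-- The majorant of the transverse derivative of the cutoff function. -/
noncomputable def hy (K : ℕ) (r : ℕ → ℝ) (θ : ℕ → Side n → ℝ → ℝ) (e : ℕ → ℝ → ℝ)
    (s : Side n) (x : ℝ) : ℝ :=
  ∑ j ∈ Finset.range K, (1 / 2 : ℝ) ^ j *
    (f s.1 x * dj S t f (r j) (θ j) s x + e j x)

variable {S t f}

lemma dns_int {f p : ℝ → ℝ} {l u : ℝ} (h : Dns f p l u) : IntegrableOn f (Ioo l u) := by
  have h1 : IntegrableOn (fun x => 1 + f x ^ 2) (Ioo l u) :=
    Integrable.add (integrableOn_const (by simp)) h.sq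
  refine Integrable.mono' h1 h.meas.aestronglyMeasurable (ae_of_all _ fun x => ?_)
  rw [Real.norm_eq_abs, abs_of_nonneg (h.nonneg x)]
  nlinarith [sq_nonneg (f x - 1), h.nonneg x]

lemma dns_cont {f p : ℝ → ℝ} {l u : ℝ} (h : Dns f p l u) : ContinuousOn p (Icc l u) := by
  have h1 : IntegrableOn f (Icc l u) := by
    rw [integrableOn_Icc_iff_integrableOn_Ioo]; exact dns_int h
  have h2 := intervalIntegral.continuousOn_primitive h1
  have h3 : ContinuousOn (fun x => p l + ∫ z in Ioc l x, f z) (Icc l u) :=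
    continuousOn_const.add h2
  refine h3.congr fun x hx => ?_
  have := h.mass l x le_rfl hx.1 hx.2
  change p x = p l + ∫ z in Ioc l x, f z
  rw [integral_Ioc_eq_integral_Ioo]
  linarith

lemma dns_contAt {f p : ℝ → ℝ} {l u x : ℝ} (h : Dns f p l u) (h1 : l < x) (h2 : x < u) :
    ContinuousAt p x :=
  (dns_cont h).continuousAt (Icc_mem_nhds h1 h2)

lemma zn_mono {p : ℝ → ℝ} {l u r r' x : ℝ} (h : r ≤ r') (hz : Zn p l u r x) :
    Zn p l u r' x :=
  hz.imp (fun h1 => h1.trans h) fun h1 => h1.trans h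

variable (C : Ctx S t f)

include C

lemma Ctx.ki_zero (hZ : T_ZON) {s : Side n} {K : ℕ} {r L : ℕ → ℝ} {x : ℝ}
    {θ : ℕ → Side n → ℝ → ℝ}
    (hθ : ∀ j, Lay S t f (r j) (L j) (θ j)) (hr : ∀ j, 0 < r j) (hL : ∀ j, 0 < L j)
    (hm : ∀ j, r 0 ≤ r j) (h1 : le S t s < x) (h2 : x < ri S t s)
    (hz : Zn (S.pf t f s.1) (le S t s) (ri S t s) (r 0) x) : ki S t f K r θ s x = 0 := by
  unfold ki
  rw [Finset.sum_eq_zero, mul_zero]
  intro j _
  exact (hZ n S t f C.ld C.si (r j) (hr j)).1 (L j) (θ j) (hL j) (hθ j) s x h1 h2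
    (zn_mono (hm j) hz)

/-- The change of the section along a chord is at most the change of the cutoff function. -/
lemma Ctx.ph_diff (hZ : T_ZON) {s s' : Side n} {τ : ℝ} {K : ℕ} {r L : ℕ → ℝ} {x : ℝ}
    {θ : ℕ → Side n → ℝ → ℝ}
    (hθ : ∀ j, Lay S t f (r j) (L j) (θ j)) (hr : ∀ j, 0 < r j) (hL : ∀ j, 0 < L j)
    (hm : ∀ j, r 0 ≤ r j) (hs : s.1 = s'.1) (h1 : S.InI t s x) (h2 : S.InJ t s' x) :
    ‖ph S t f τ K r θ s x - ph S t f τ K r θ s' x‖ ≤
      ‖ki S t f K r θ s x - ki S t f K r θ s' x‖ := by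
  obtain ⟨a1, a2⟩ := ((C.part n S t).2.1 s x).1 (Or.inl h1)
  obtain ⟨b1, b2⟩ := ((C.part n S t).2.1 s' x).1 (Or.inr h2)
  have e1 : ph S t f τ K r θ s x = ki S t f K r θ s x * us S t f τ (r 0) s x := by
    unfold ph; exact if_pos ⟨a1, a2⟩
  have e2 : ph S t f τ K r θ s' x = ki S t f K r θ s' x * us S t f τ (r 0) s' x := by
    unfold ph; exact if_pos ⟨b1, b2⟩
  rw [e1, e2]
  by_cases hz : Zn (S.pf t f s.1) (le S t s) (ri S t s) (r 0) x
  · rw [C.ki_zero hZ hθ hr hL hm a1 a2 hz, zero_mul, zero_sub, zero_sub, norm_neg, norm_neg,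
      norm_mul]
    exact mul_le_of_le_one_right (norm_nonneg _) (C.deru (hr 0) b1 b2).1
  · by_cases hz' : Zn (S.pf t f s'.1) (le S t s') (ri S t s') (r 0) x
    · rw [C.ki_zero hZ hθ hr hL hm b1 b2 hz', zero_mul, sub_zero, sub_zero, norm_mul]
      exact mul_le_of_le_one_right (norm_nonneg _) (C.deru (hr 0) a1 a2).1
    · have e3 : us S t f τ (r 0) s x = us S t f τ (r 0) s' x := by
        unfold us av
        rw [(hZ n S t f C.ld C.si (r 0) (hr 0)).2 s s' hs x h1 h2 hz hz', hs]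
      rw [e3, ← sub_mul, norm_mul]
      exact mul_le_of_le_one_right (norm_nonneg _) (C.deru (hr 0) b1 b2).1

/-- The bound of the change along a chord. -/
lemma Ctx.xb (hZ : T_ZON) (hT : T_TRI) {s s' : Side n} {τ ρ Λ : ℝ} {K : ℕ} {r L : ℕ → ℝ}
    {x : ℝ} {θ : ℕ → Side n → ℝ → ℝ} (hρ : 0 < ρ) (hΛ : 0 < Λ) (hr : ∀ j, r j = 2 ^ j * ρ)
    (hL : ∀ j, L j = 2 ^ j * Λ)
    (hθ : ∀ j, Lay S t f (r j) (L j) (θ j)) (hs : s.1 = s'.1) (h1 : S.InI t s x)
    (h2 : S.InJ t s' x) :
    ‖ph S t f τ K r θ s x - ph S t f τ K r θ s' x‖ ≤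
      4 / (K * Λ) * ch S t s.1 x * (hx S t f K r θ s x + hx S t f K r θ s' x) := by
  have hr0 : ∀ j, 0 < r j := fun j => by rw [hr]; positivity
  have hL0 : ∀ j, 0 < L j := fun j => by rw [hL]; positivity
  have hm : ∀ j, r 0 ≤ r j := fun j => by
    rw [hr, hr, pow_zero, one_mul]
    exact le_mul_of_one_le_left hρ.le (one_le_pow₀ (by norm_num))
  refine (C.ph_diff hZ hθ hr0 hL0 hm hs h1 h2).trans ?_
  have e1 : ki S t f K r θ s x - ki S t f K r θ s' x = (K : ℂ)⁻¹ *
      ∑ j ∈ Finset.range K, (ps S t f (r j) (θ j) s x - ps S t f (r j) (θ j) s' x) := by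
    unfold ki
    rw [Finset.sum_sub_distrib]
    ring
  rw [e1, norm_mul, norm_inv, Complex.norm_natCast]
  calc (K : ℝ)⁻¹ * ‖∑ j ∈ Finset.range K,
        (ps S t f (r j) (θ j) s x - ps S t f (r j) (θ j) s' x)‖
      ≤ (K : ℝ)⁻¹ * ∑ j ∈ Finset.range K, (4 / Λ * ch S t s.1 x) * ((1 / 2 : ℝ) ^ j *
          (f s.1 x * dj S t f (r j) (θ j) s x + oj S t f (r j) s x) + (1 / 2 : ℝ) ^ j *
          (f s'.1 x * dj S t f (r j) (θ j) s' x + oj S t f (r j) s' x)) := by
        refine mul_le_mul_of_nonneg_left ?_ (by positivity)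
        refine (norm_sum_le _ _).trans (Finset.sum_le_sum fun j _ => ?_)
        refine (hT n S t f C.ld C.si (r j) (L j) (θ j) (hr0 j) (hL0 j) (hθ j) s s' hs x h1
          h2).trans (le_of_eq ?_)
        have e2 : fa (Rd S t f (r j) s') ((Es S t (θ j) s.1).indicator 1) x =
            dj S t f (r j) (θ j) s' x := by unfold dj; rw [hs]
        have e3 : fa (Rd S t f (r j) s') (fun y => |f s.1 y - f s.1 x|) x =
            oj S t f (r j) s' x := by unfold oj; rw [hs]
        rw [e2, e3, hL j, ← hs]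
        have e4 : fa (Rd S t f (r j) s) ((Es S t (θ j) s.1).indicator 1) x =
            dj S t f (r j) (θ j) s x := rfl
        have e5 : fa (Rd S t f (r j) s) (fun y => |f s.1 y - f s.1 x|) x =
            oj S t f (r j) s x := rfl
        rw [e4, e5, one_div, inv_pow]
        have : (2 : ℝ) ^ j ≠ 0 := by positivity
        field_simp
        ring
    _ = 4 / (K * Λ) * ch S t s.1 x * (hx S t f K r θ s x + hx S t f K r θ s' x) := by
        rw [← Finset.mul_sum, Finset.sum_add_distrib]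
        unfold hx
        rcases Nat.eq_zero_or_pos K with hK | hK
        · subst hK; simp
        · have : (K : ℝ) ≠ 0 := by exact_mod_cast hK.ne'
          field_simp

/-- The local Lipschitz bound of the section on a side. -/
lemma Ctx.yb (hZ : T_ZON) {s : Side n} {τ ρ : ℝ} {K : ℕ} {r L : ℕ → ℝ}
    {x : ℝ} {θ : ℕ → Side n → ℝ → ℝ} {e : ℕ → ℝ → ℝ} (hρ : 0 < ρ)
    (hr : ∀ j, r j = 2 ^ j * ρ) (hL0 : ∀ j, 0 < L j)
    (hθ : ∀ j, Lay S t f (r j) (L j) (θ j)) (he0 : ∀ j x, 0 ≤ e j x)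
    (he : ∀ j ≤ K, ∀ x, le S t s < x → x < ri S t s →
      ¬ Zn (S.pf t f s.1) (le S t s) (ri S t s) (r j) x →
      r j / Rd S t f (r j) s x ≤ 4 * f s.1 x + e j x)
    (h1 : le S t s < x) (h2 : x < ri S t s)
    (hx1 : ∀ j, S.pf t f s.1 x - S.pf t f s.1 (le S t s) ≠ r j)
    (hx2 : ∀ j, S.pf t f s.1 (ri S t s) - S.pf t f s.1 x ≠ r j) :
    ∀ᶠ x' in 𝓝 x, ‖ph S t f τ K r θ s x' - ph S t f τ K r θ s x‖ ≤
      (64 / (K * ρ) * hy S t f K r θ e s x +
        16 / ρ * (4 * f s.1 x + e 0 x) * ou S t f τ (r 0) s x) * |x' - x| := by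
  have hr0 : ∀ j, 0 < r j := fun j => by rw [hr]; positivity
  have hm : ∀ j, r 0 ≤ r j := fun j => by
    rw [hr, hr, pow_zero, one_mul]
    exact le_mul_of_one_le_left hρ.le (one_le_pow₀ (by norm_num))
  have hd := C.dns (h1.trans h2)
  have hf0 : 0 ≤ f s.1 x := C.ld.nonneg _ _
  have hrange : ∀ᶠ x' in 𝓝 x, le S t s < x' ∧ x' < ri S t s := Ioo_mem_nhds h1 h2
  have hpc := dns_contAt hd h1 h2
  -- near a point of the zone we are in the zone
  have hzn : ∀ j, Zn (S.pf t f s.1) (le S t s) (ri S t s) (r j) x →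
      ∀ᶠ x' in 𝓝 x, Zn (S.pf t f s.1) (le S t s) (ri S t s) (r j) x' := by
    intro j hz
    rcases hz with hz | hz
    · have : S.pf t f s.1 x < S.pf t f s.1 (le S t s) + r j :=
        lt_of_le_of_ne (by linarith) fun h => hx1 j (by linarith)
      filter_upwards [hpc.eventually (gt_mem_nhds this)] with x' hx'
      left; linarith
    · have : S.pf t f s.1 (ri S t s) - r j < S.pf t f s.1 x :=
        lt_of_le_of_ne (by linarith) fun h => hx2 j (by linarith)
      filter_upwards [hpc.eventually (lt_mem_nhds this)] with x' hx'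
      right; linarith
  have hball : ∀ j, ∀ᶠ x' in 𝓝 x, |x' - x| ≤ Rd S t f (r j) s x / 8 := by
    intro j
    have hp := C.rpos (hr0 j) h1 h2
    filter_upwards [Metric.ball_mem_nhds x (show 0 < Rd S t f (r j) s x / 8 by positivity)]
      with x' hx'
    rw [Metric.mem_ball, Real.dist_eq] at hx'
    exact hx'.le
  have hdj0 : ∀ j, 0 ≤ dj S t f (r j) (θ j) s x := fun j => C.dj_nonneg (hr0 j) h1 h2 _
  have hdj2 : ∀ j, dj S t f (r j) (θ j) s x ≤ 3 / 2 := fun j => C.dj_le (hr0 j) h1 h2 _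
  have hou0 : 0 ≤ ou S t f τ (r 0) s x := C.ou_nonneg (hr0 0) h1 h2
  -- one layer
  have hone : ∀ j < K, ∀ᶠ x' in 𝓝 x, ‖ps S t f (r j) (θ j) s x' - ps S t f (r j) (θ j) s x‖ ≤
      64 / ρ * ((1 / 2 : ℝ) ^ j * (f s.1 x * dj S t f (r j) (θ j) s x + e j x)) *
        |x' - x| := by
    intro j hj
    by_cases hz : Zn (S.pf t f s.1) (le S t s) (ri S t s) (r j) x
    · filter_upwards [hzn j hz, hrange] with x' hz' hx'
      rw [show ps S t f (r j) (θ j) s x' = 0 from
        (hZ n S t f C.ld C.si (r j) (hr0 j)).1 (L j) (θ j) (hL0 j) (hθ j) s x' hx'.1 hx'.2 hz',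
        show ps S t f (r j) (θ j) s x = 0 from
        (hZ n S t f C.ld C.si (r j) (hr0 j)).1 (L j) (θ j) (hL0 j) (hθ j) s x h1 h2 hz]
      rw [sub_self, norm_zero]
      have := he0 j x
      have := hdj0 j
      positivity
    · filter_upwards [hball j] with x' hx'
      refine ((C.derθ (hθ j) (hr0 j) h1 h2).2.2 x' hx').trans ?_
      have hp := C.rpos (hr0 j) h1 h2
      have h3 := he j hj.le x h1 h2 hz
      have h4 : (Rd S t f (r j) s x)⁻¹ ≤ (4 * f s.1 x + e j x) / r j := by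
        rw [le_div_iff₀ (hr0 j), inv_mul_eq_div]
        exact h3
      calc 16 * (|x' - x| / Rd S t f (r j) s x) * dj S t f (r j) (θ j) s x
          = 16 * |x' - x| * dj S t f (r j) (θ j) s x * (Rd S t f (r j) s x)⁻¹ := by
            rw [div_eq_mul_inv]; ring
        _ ≤ 16 * |x' - x| * dj S t f (r j) (θ j) s x * ((4 * f s.1 x + e j x) / r j) := by
            refine mul_le_mul_of_nonneg_left h4 ?_
            have := hdj0 j
            positivity
        _ = 16 / r j * (4 * (f s.1 x * dj S t f (r j) (θ j) s x) +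
              e j x * dj S t f (r j) (θ j) s x) * |x' - x| := by ring
        _ ≤ 16 / r j * (4 * (f s.1 x * dj S t f (r j) (θ j) s x) + 4 * e j x) * |x' - x| := by
            refine mul_le_mul_of_nonneg_right ?_ (abs_nonneg _)
            refine mul_le_mul_of_nonneg_left ?_ (div_nonneg (by norm_num) (hr0 j).le)
            nlinarith [hdj2 j, he0 j x, hdj0 j]
        _ = _ := by
            rw [hr j, one_div, inv_pow]
            have : (2 : ℝ) ^ j ≠ 0 := by positivity
            field_simp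
            ring
  have hki : ∀ᶠ x' in 𝓝 x, ‖ki S t f K r θ s x' - ki S t f K r θ s x‖ ≤
      64 / (K * ρ) * hy S t f K r θ e s x * |x' - x| := by
    have hall : ∀ᶠ x' in 𝓝 x, ∀ j ∈ Finset.range K,
        ‖ps S t f (r j) (θ j) s x' - ps S t f (r j) (θ j) s x‖ ≤
      64 / ρ * ((1 / 2 : ℝ) ^ j * (f s.1 x * dj S t f (r j) (θ j) s x + e j x)) *
        |x' - x| := by
      rw [Filter.eventually_all_finset]
      intro j hj
      exact hone j (Finset.mem_range.1 hj)
    filter_upwards [hall] with x' hx'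
    have e1 : ki S t f K r θ s x' - ki S t f K r θ s x = (K : ℂ)⁻¹ *
        ∑ j ∈ Finset.range K, (ps S t f (r j) (θ j) s x' - ps S t f (r j) (θ j) s x) := by
      unfold ki
      rw [Finset.sum_sub_distrib]
      ring
    rw [e1, norm_mul, norm_inv, Complex.norm_natCast]
    calc (K : ℝ)⁻¹ * ‖∑ j ∈ Finset.range K,
          (ps S t f (r j) (θ j) s x' - ps S t f (r j) (θ j) s x)‖
        ≤ (K : ℝ)⁻¹ * ∑ j ∈ Finset.range K, 64 / ρ * ((1 / 2 : ℝ) ^ j *
            (f s.1 x * dj S t f (r j) (θ j) s x + e j x)) * |x' - x| := by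
          refine mul_le_mul_of_nonneg_left ?_ (by positivity)
          exact (norm_sum_le _ _).trans (Finset.sum_le_sum hx')
      _ = 64 / (K * ρ) * hy S t f K r θ e s x * |x' - x| := by
          rw [← Finset.sum_mul, ← Finset.mul_sum]
          unfold hy
          rcases Nat.eq_zero_or_pos K with hK | hK
          · subst hK; simp
          · have : (K : ℝ) ≠ 0 := by exact_mod_cast hK.ne'
            field_simp
  have hhy0 : 0 ≤ hy S t f K r θ e s x := by
    refine Finset.sum_nonneg fun j _ => ?_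
    have := he0 j x
    have := hdj0 j
    positivity
  have hph : ∀ x', le S t s < x' → x' < ri S t s →
      ph S t f τ K r θ s x' = ki S t f K r θ s x' * us S t f τ (r 0) s x' := by
    intro x' a b
    unfold ph; exact if_pos ⟨a, b⟩
  by_cases hz : Zn (S.pf t f s.1) (le S t s) (ri S t s) (r 0) x
  · filter_upwards [hzn 0 hz, hrange] with x' hz' hx'
    rw [hph x' hx'.1 hx'.2, hph x h1 h2, C.ki_zero hZ hθ hr0 hL0 hm hx'.1 hx'.2 hz',
      C.ki_zero hZ hθ hr0 hL0 hm h1 h2 hz, zero_mul, zero_mul, sub_self, norm_zero]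
    have := he0 0 x
    positivity
  · filter_upwards [hki, hrange, hball 0] with x' hk hx' hb
    rw [hph x' hx'.1 hx'.2, hph x h1 h2]
    have e1 : ki S t f K r θ s x' * us S t f τ (r 0) s x' -
        ki S t f K r θ s x * us S t f τ (r 0) s x =
        (ki S t f K r θ s x' - ki S t f K r θ s x) * us S t f τ (r 0) s x +
          ki S t f K r θ s x' * (us S t f τ (r 0) s x' - us S t f τ (r 0) s x) := by ring
    rw [e1, add_mul]
    refine (norm_add_le _ _).trans (add_le_add ?_ ?_)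
    · rw [norm_mul]
      refine (mul_le_of_le_one_right (norm_nonneg _) (C.deru (hr0 0) h1 h2).1).trans hk
    · rw [norm_mul]
      refine (mul_le_of_le_one_left (norm_nonneg _) (C.norm_ki hθ hr0 hx'.1 hx'.2)).trans ?_
      refine ((C.deru (hr0 0) h1 h2).2.2 x' hb).trans ?_
      have h3 := he 0 (Nat.zero_le _) x h1 h2 hz
      have hp := C.rpos (hr0 0) h1 h2
      have h4 : (Rd S t f (r 0) s x)⁻¹ ≤ (4 * f s.1 x + e 0 x) / r 0 := by
        rw [le_div_iff₀ (hr0 0), inv_mul_eq_div]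
        exact h3
      calc 16 * (|x' - x| / Rd S t f (r 0) s x) * ou S t f τ (r 0) s x
          = 16 * |x' - x| * ou S t f τ (r 0) s x * (Rd S t f (r 0) s x)⁻¹ := by
            rw [div_eq_mul_inv]; ring
        _ ≤ 16 * |x' - x| * ou S t f τ (r 0) s x * ((4 * f s.1 x + e 0 x) / r 0) := by
            refine mul_le_mul_of_nonneg_left h4 ?_
            positivity
        _ = _ := by
            rw [hr 0, pow_zero, one_mul]
            ring

end Pool.Agent.H79.BQ
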