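import Pool.Agent.H79.BQ.Lip

/-!
# Quasimodes: the sum of the layers with a weight
-/

set_option autoImplicit false

namespace Pool.Agent.H79.BQ

open MeasureTheory Set Filter Topology Pool.Agent.H79.GT Pool.Agent.H44.DU

/-- The sum of the layers, with a weight. -/
lemma sumb (hS : T_SUM) {l u : ℝ} {K : ℕ} {g w : ℝ → ℝ} {D E : ℕ → ℝ → ℝ} {A δ : ℝ}
    (hA : 0 ≤ A) (hδ : 0 ≤ δ) (hg0 : ∀ x, 0 ≤ g x) (hw0 : ∀ x, 0 ≤ w x)
    (hg : AEStronglyMeasurable g (volume.restrict (Ioo l u)))
    (hw : AEStronglyMeasurable w (volume.restrict (Ioo l u)))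
    (hD : ∀ j < K, AEStronglyMeasurable (D j) (volume.restrict (Ioo l u)))
    (hE : ∀ j < K, AEStronglyMeasurable (E j) (volume.restrict (Ioo l u)))
    (hD0 : ∀ j < K, ∀ x ∈ Ioo l u, 0 ≤ D j x ∧ D j x ≤ 2)
    (hgi : IntegrableOn (fun x => g x ^ 2 * w x) (Ioo l u))
    (hEi : ∀ j < K, IntegrableOn (fun x => E j x ^ 2 * w x) (Ioo l u))
    (hE1 : ∀ j < K, ∫ x in Ioo l u, E j x ^ 2 * w x ≤ δ)
    (hD1 : ∀ j < K, ∫ x in Ioo l u, g x ^ 2 * w x * D j x ≤ A * 4 ^ j + δ) :
    IntegrableOn (fun x => (∑ j ∈ Finset.range K, (1 / 2 : ℝ) ^ j * (g x * D j x + E j x)) ^ 2 *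
      w x) (Ioo l u) ∧
    ∫ x in Ioo l u, (∑ j ∈ Finset.range K, (1 / 2 : ℝ) ^ j * (g x * D j x + E j x)) ^ 2 * w x ≤
      16 * K * A + 30 * δ := by
  classical
  set D' : ℕ → ℝ → ℝ := fun j => if j < K then (Ioo l u).indicator (D j) else 0 with hD'
  set E' : ℕ → ℝ → ℝ := fun j => if j < K then fun x => E j x * √(w x) else 0 with hE'
  have hsq : ∀ x, √(w x) ^ 2 = w x := fun x => Real.sq_sqrt (hw0 x)
  have hws : AEStronglyMeasurable (fun x => √(w x)) (volume.restrict (Ioo l u)) :=
    Real.continuous_sqrt.comp_aestronglyMeasurable hw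
  have hEe : ∀ j < K, (fun x => E' j x ^ 2) = fun x => E j x ^ 2 * w x := by
    intro j hj
    funext x
    simp only [hE', if_pos hj]
    rw [mul_pow, hsq]
  have h := hS (volume.restrict (Ioo l u)) K (fun x => g x * √(w x)) D' E' A δ hA hδ
    (hg.mul hws) (fun j => by
      by_cases hj : j < K
      · simp only [hD', if_pos hj]
        exact (hD j hj).indicator measurableSet_Ioo
      · simp only [hD', if_neg hj]
        exact aestronglyMeasurable_const) (fun j => by
      by_cases hj : j < K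
      · simp only [hE', if_pos hj]
        exact (hE j hj).mul hws
      · simp only [hE', if_neg hj]
        exact aestronglyMeasurable_const) (fun x => mul_nonneg (hg0 x) (Real.sqrt_nonneg _))
    (fun j x => by
      by_cases hj : j < K
      · simp only [hD', if_pos hj]
        by_cases hx : x ∈ Ioo l u
        · rw [Set.indicator_of_mem hx]; exact hD0 j hj x hx
        · rw [Set.indicator_of_notMem hx]; norm_num
      · simp only [hD', if_neg hj]
        norm_num) (by
      refine hgi.congr (ae_of_all _ fun x => ?_)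
      simp only
      rw [mul_pow, hsq]) (fun j => by
      by_cases hj : j < K
      · rw [hEe j hj]; exact hEi j hj
      · simp only [hE', if_neg hj]
        simp) (fun j hj => by
      rw [hEe j hj]; exact hE1 j hj) (fun j hj => by
      refine le_trans (le_of_eq ?_) (hD1 j hj)
      refine setIntegral_congr_fun measurableSet_Ioo fun x hx => ?_
      simp only [hD', if_pos hj, Set.indicator_of_mem hx]
      rw [mul_pow, hsq])
  have hcong : EqOn (fun x => (∑ j ∈ Finset.range K, (1 / 2 : ℝ) ^ j *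
      (g x * √(w x) * D' j x + E' j x)) ^ 2)
      (fun x => (∑ j ∈ Finset.range K, (1 / 2 : ℝ) ^ j * (g x * D j x + E j x)) ^ 2 * w x)
      (Ioo l u) := by
    intro x hx
    simp only
    have e1 : ∑ j ∈ Finset.range K, (1 / 2 : ℝ) ^ j * (g x * √(w x) * D' j x + E' j x) =
        (∑ j ∈ Finset.range K, (1 / 2 : ℝ) ^ j * (g x * D j x + E j x)) * √(w x) := by
      rw [Finset.sum_mul]
      refine Finset.sum_congr rfl fun j hj => ?_
      have hj' := Finset.mem_range.1 hj
      simp only [hD', hE', if_pos hj', Set.indicator_of_mem hx]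
      ring
    rw [e1, mul_pow, hsq]
  refine ⟨(integrableOn_congr_fun hcong measurableSet_Ioo).1 h.1, ?_⟩
  rw [← setIntegral_congr_fun measurableSet_Ioo hcong]
  exact h.2

end Pool.Agent.H79.BQ
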