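import Pool.Agent.H79.BQ.Sb

/-!
# Quasimodes: the small quantities of one side
-/

set_option autoImplicit false

namespace Pool.Agent.H79.BQ

open MeasureTheory Set Filter Topology Pool.Agent.H79.GT Pool.Agent.H44.DU

/-- The part of an integrable function above a high level. -/
lemma tail_small {l u : ℝ} {g : ℝ → ℝ} (hg0 : ∀ x, 0 ≤ g x) (hg : IntegrableOn g (Ioo l u))
    {δ : ℝ} (hδ : 0 < δ) : ∃ N : ℕ, 0 < N ∧ ∫ x in Ioo l u, max (g x - N) 0 ≤ δ := by
  have h : Tendsto (fun N : ℕ => ∫ x in Ioo l u, max (g x - N) 0) atTop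
      (𝓝 (∫ x in Ioo l u, (0 : ℝ))) := by
    refine tendsto_integral_of_dominated_convergence g (fun N => ?_) hg (fun N => ?_) ?_
    · exact (hg.aestronglyMeasurable.sub aestronglyMeasurable_const).sup
        aestronglyMeasurable_const
    · refine ae_of_all _ fun x => ?_
      rw [Real.norm_eq_abs, abs_of_nonneg (le_max_right _ _)]
      refine max_le ?_ (hg0 x)
      have : (0 : ℝ) ≤ N := Nat.cast_nonneg N
      linarith
    · refine ae_of_all _ fun x => ?_
      obtain ⟨M, hM⟩ := exists_nat_ge (g x)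
      refine tendsto_const_nhds.congr' ?_
      filter_upwards [eventually_ge_atTop M] with N hN
      have : (M : ℝ) ≤ N := by exact_mod_cast hN
      rw [max_eq_right (by linarith)]
  rw [integral_zero] at h
  have h2 := (h.eventually (gt_mem_nhds hδ)).and (eventually_gt_atTop 0)
  obtain ⟨N, hN, hN'⟩ := h2.exists
  exact ⟨N, hN', hN.le⟩

/-- The set of small positive values. -/
lemma low_small {l u : ℝ} {h : ℝ → ℝ} (hm : Measurable h) {δ : ℝ} (hδ : 0 < δ) :
    ∃ a : ℝ, 0 < a ∧ ∫ x in Ioo l u, {x | 0 < h x ∧ h x < a}.indicator (1 : ℝ → ℝ) x ≤ δ := by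
  have hmeas : ∀ a : ℝ, MeasurableSet {x | 0 < h x ∧ h x < a} := fun a =>
    (measurableSet_lt measurable_const hm).inter (measurableSet_lt hm measurable_const)
  have hl : Tendsto (fun N : ℕ => ∫ x in Ioo l u,
      {x | 0 < h x ∧ h x < 1 / ((N : ℝ) + 1)}.indicator (1 : ℝ → ℝ) x) atTop
      (𝓝 (∫ x in Ioo l u, (0 : ℝ))) := by
    refine tendsto_integral_of_dominated_convergence (fun _ => (1 : ℝ)) (fun N => ?_)
      (integrableOn_const (by simp)) (fun N => ?_) ?_
    · exact (aestronglyMeasurable_const (b := (1 : ℝ))).indicator (hmeas _)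
    · refine ae_of_all _ fun x => ?_
      by_cases hx : x ∈ {x | 0 < h x ∧ h x < 1 / ((N : ℝ) + 1)}
      · rw [Set.indicator_of_mem hx]; simp
      · rw [Set.indicator_of_notMem hx]; simp
    · refine ae_of_all _ fun x => ?_
      by_cases hx : 0 < h x
      · obtain ⟨M, hM⟩ := exists_nat_one_div_lt hx
        refine tendsto_const_nhds.congr' ?_
        filter_upwards [eventually_ge_atTop M] with N hN
        have h1 : (M : ℝ) ≤ N := by exact_mod_cast hN
        have h2 : 1 / ((N : ℝ) + 1) ≤ 1 / ((M : ℝ) + 1) := by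
          apply one_div_le_one_div_of_le <;> [positivity; linarith]
        rw [Set.indicator_of_notMem]
        intro h3
        have := h3.2
        linarith
      · refine tendsto_const_nhds.congr' (Eventually.of_forall fun N => ?_)
        exact (Set.indicator_of_notMem (fun h3 => hx h3.1) _).symm
  rw [integral_zero] at hl
  obtain ⟨N, hN⟩ := (hl.eventually (gt_mem_nhds hδ)).exists
  exact ⟨1 / ((N : ℝ) + 1), by positivity, hN.le⟩

variable {n : ℕ} {S : Surf n} {t : ℝ} {f : Fin n → ℝ → ℝ}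

variable (C : Ctx S t f)

include C

/-- The small quantities of a side. -/
lemma Ctx.small (hI : T_INV) (h1 : T_CV1) (h2 : T_CV2) {s : Side n}
    (hs : le S t s < ri S t s) (τ : ℝ) {δ : ℝ} (hδ : 0 < δ) :
    ∃ ρ₀ > (0 : ℝ), ∀ r, 0 < r → r ≤ ρ₀ →
      (IntegrableOn (fun x => oj S t f r s x ^ 2) (Ioo (le S t s) (ri S t s)) ∧
        ∫ x in Ioo (le S t s) (ri S t s), oj S t f r s x ^ 2 ≤ δ) ∧
      (IntegrableOn (ou S t f τ r s) (Ioo (le S t s) (ri S t s)) ∧
        ∫ x in Ioo (le S t s) (ri S t s), ou S t f τ r s x ≤ δ) ∧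
      (IntegrableOn (fun x => f s.1 x ^ 2 * ou S t f τ r s x ^ 2)
          (Ioo (le S t s) (ri S t s)) ∧
        ∫ x in Ioo (le S t s) (ri S t s), f s.1 x ^ 2 * ou S t f τ r s x ^ 2 ≤ δ) ∧
      ∃ e : ℝ → ℝ, Measurable e ∧ (∀ x, 0 ≤ e x) ∧
        IntegrableOn (fun x => e x ^ 2) (Ioo (le S t s) (ri S t s)) ∧
        ∫ x in Ioo (le S t s) (ri S t s), e x ^ 2 ≤ δ ∧
        ∀ x, le S t s < x → x < ri S t s →
          ¬ Zn (S.pf t f s.1) (le S t s) (ri S t s) r x →
          r / Rd S t f r s x ≤ 4 * f s.1 x + e x := by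
  have hd := C.dns hs
  have hum := meas_uu τ C.ld.meas s.1
  have hui : IntegrableOn (uu τ f s.1) (Ioo (le S t s) (ri S t s)) := by
    refine Integrable.mono' (integrableOn_const (C := (1 : ℝ)) (by simp))
      hum.aestronglyMeasurable (ae_of_all _ fun x => norm_uu τ f s.1 x)
  obtain ⟨N, hN, hN'⟩ := tail_small (g := fun x => f s.1 x ^ 2) (fun x => sq_nonneg _) hd.sq
    (show 0 < δ / 18 by positivity)
  have hNr : (0 : ℝ) < N := by exact_mod_cast hN
  obtain ⟨ρ1, hρ1, H1⟩ := h2 _ _ _ _ hd (f s.1) hd.meas hd.sq δ hδ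
  obtain ⟨ρ2, hρ2, H2⟩ := h1 _ _ _ _ hd (uu τ f s.1) hum hui (min δ (δ / (6 * N)))
    (lt_min hδ (by positivity))
  obtain ⟨ρ3, hρ3, H3⟩ := hI _ _ _ _ hd δ hδ
  refine ⟨min (min ρ1 ρ2) ρ3, lt_min (lt_min hρ1 hρ2) hρ3, fun r hr hr' => ?_⟩
  have e1 := H1 r hr (hr'.trans ((min_le_left _ _).trans (min_le_left _ _)))
  have e2 := H2 r hr (hr'.trans ((min_le_left _ _).trans (min_le_right _ _)))
  have e3 := H3 r hr (hr'.trans (min_le_right _ _))
  refine ⟨e1, ⟨e2.1, e2.2.trans (min_le_left _ _)⟩, ?_, e3⟩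
  have hou : IntegrableOn (ou S t f τ r s) (Ioo (le S t s) (ri S t s)) := e2.1
  have hb : ∀ x ∈ Ioo (le S t s) (ri S t s), 0 ≤ ou S t f τ r s x ∧ ou S t f τ r s x ≤ 3 :=
    fun x hx => ⟨C.ou_nonneg hr hx.1 hx.2, C.ou_le hr hx.1 hx.2⟩
  have hmaj : ∀ x ∈ Ioo (le S t s) (ri S t s), f s.1 x ^ 2 * ou S t f τ r s x ^ 2 ≤
      3 * N * ou S t f τ r s x + 9 * max (f s.1 x ^ 2 - N) 0 := by
    intro x hx
    obtain ⟨b1, b2⟩ := hb x hx
    set o := ou S t f τ r s x
    have h3 : f s.1 x ^ 2 ≤ N + max (f s.1 x ^ 2 - N) 0 := by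
      have := le_max_left (f s.1 x ^ 2 - N) 0
      linarith
    have h4 : 0 ≤ max (f s.1 x ^ 2 - N) 0 := le_max_right _ _
    have h5 : o ^ 2 ≤ 3 * o := by nlinarith
    have h6 : o ^ 2 ≤ 9 := by nlinarith
    calc f s.1 x ^ 2 * o ^ 2 ≤ (N + max (f s.1 x ^ 2 - N) 0) * o ^ 2 :=
          mul_le_mul_of_nonneg_right h3 (sq_nonneg _)
      _ = N * o ^ 2 + max (f s.1 x ^ 2 - N) 0 * o ^ 2 := by ring
      _ ≤ N * (3 * o) + max (f s.1 x ^ 2 - N) 0 * 9 :=
          add_le_add (mul_le_mul_of_nonneg_left h5 hNr.le) (mul_le_mul_of_nonneg_left h6 h4)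
      _ = _ := by ring
  have hmi : IntegrableOn (fun x => max (f s.1 x ^ 2 - N) 0) (Ioo (le S t s) (ri S t s)) := by
    refine Integrable.mono' hd.sq ((hd.sq.aestronglyMeasurable.sub
      aestronglyMeasurable_const).sup aestronglyMeasurable_const) (ae_of_all _ fun x => ?_)
    rw [Real.norm_eq_abs, abs_of_nonneg (le_max_right _ _)]
    exact max_le (by linarith) (sq_nonneg _)
  have hRi : IntegrableOn (fun x => 3 * N * ou S t f τ r s x + 9 * max (f s.1 x ^ 2 - N) 0)
      (Ioo (le S t s) (ri S t s)) := (hou.const_mul _).add (hmi.const_mul _)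
  refine ⟨?_, ?_⟩
  · refine Integrable.mono' hRi ((hd.sq.aestronglyMeasurable).mul
      (hou.aestronglyMeasurable.pow 2)) ?_
    refine (ae_restrict_iff' measurableSet_Ioo).2 (ae_of_all _ fun x hx => ?_)
    rw [Real.norm_eq_abs, abs_of_nonneg (by positivity)]
    exact hmaj x hx
  · calc ∫ x in Ioo (le S t s) (ri S t s), f s.1 x ^ 2 * ou S t f τ r s x ^ 2
        ≤ ∫ x in Ioo (le S t s) (ri S t s),
            (3 * N * ou S t f τ r s x + 9 * max (f s.1 x ^ 2 - N) 0) := by
          refine integral_mono_of_nonneg (ae_of_all _ fun x => by positivity) hRi ?_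
          exact (ae_restrict_iff' measurableSet_Ioo).2 (ae_of_all _ hmaj)
      _ = 3 * N * (∫ x in Ioo (le S t s) (ri S t s), ou S t f τ r s x) +
            9 * ∫ x in Ioo (le S t s) (ri S t s), max (f s.1 x ^ 2 - N) 0 := by
          rw [integral_add (hou.const_mul _) (hmi.const_mul _), integral_const_mul,
            integral_const_mul]
      _ ≤ 3 * N * (δ / (6 * N)) + 9 * (δ / 18) := by
          refine add_le_add (mul_le_mul_of_nonneg_left
            (e2.2.trans (min_le_right _ _)) (by positivity))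
            (mul_le_mul_of_nonneg_left hN' (by norm_num))
      _ = δ := by
          field_simp
          ring

end Pool.Agent.H79.BQ
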