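import Pool.Agent.H79.BQ.Mj

/-!
# Quasimodes: the section of given parameters
-/

set_option autoImplicit false

namespace Pool.Agent.H79.BQ

open MeasureTheory Set Filter Topology Pool.Agent.H79.GT Pool.Agent.H44.DU

variable {n : ℕ} {S : Surf n} {t : ℝ} {f : Fin n → ℝ → ℝ}

/-- The interpolation property with the constant `C`. -/
def IntP (S : Surf n) (t C : ℝ) : Prop :=
  ∀ (ζ : Side n → ℂ) (Φ : Side n → ℝ → ℂ)
    (X : Fin n → ℝ → ℝ) (Y : Side n → ℝ → ℝ) (K : NNReal) (d : ℝ), 0 < d →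
    (∀ s, LipschitzOnWith K (Φ s) (Icc (le S t s) (ri S t s))) →
    (∀ s x, le S t s ≤ x → x ≤ ri S t s → (x ≤ le S t s + d ∨ ri S t s - d ≤ x) → Φ s x = 0) →
    (∀ s x, ‖Φ s x‖ ≤ 1) →
    (∀ s x, le S t s ≤ x → x ≤ ri S t s → Φ (S.gl s) (S.mv t s x) = ζ s * Φ s x) →
    (∀ i, IntegrableOn (X i) (Ioo (S.xl t i) (S.xr t i))) →
    (∀ s, IntegrableOn (Y s) (Ioo (le S t s) (ri S t s))) →
    (∀ s s' : Side n, s.1 = s'.1 → ∀ᵐ x : ℝ, S.InI t s x → S.InJ t s' x →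
      ‖Φ s x - Φ s' x‖ ^ 2 ≤ ch S t s.1 x * X s.1 x) →
    (∀ s : Side n, ∀ᵐ x : ℝ, le S t s < x → x < ri S t s → ∃ m : ℝ, 0 ≤ m ∧
      m ^ 2 * ch S t s.1 x ≤ Y s x ∧ ∀ᶠ x' in 𝓝 x, ‖Φ s x' - Φ s x‖ ≤ m * |x' - x|) →
    ∃ G : Fin n → ℂ → ℂ, S.Sec ζ G ∧ (∀ i, ∀ z ∈ S.tri i, ‖G i z‖ ≤ 1) ∧
      S.en ((t : ℂ) + Complex.I) G ≤ ∑ i : Fin n, ∫ x in Ioo (S.xl t i) (S.xr t i), X i x ∧
      S.en 1 G ≤ C * (∑ i : Fin n, (∫ x in Ioo (S.xl t i) (S.xr t i), X i x) +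
        ∑ s : Side n, ∫ x in Ioo (le S t s) (ri S t s), Y s x) ∧
      ∀ w : Fin n → ℝ → ℂ, (∀ i, Measurable (w i)) → (∀ i x, ‖w i x‖ ≤ 1) →
        ∑ i : Fin n, ∫ z in S.tri i, ‖G i z - w i (xi t z)‖ ≤
          C * ∑ s : Side n, ∫ x in Ioo (le S t s) (ri S t s), ‖Φ s x - w s.1 x‖

/-- The section of given parameters. -/
lemma Ctx.step (C : Ctx S t f) (hS : T_SUM) (hA : T_AV1) (hZ : T_ZON) (hT : T_TRI)
    {C0 : ℝ} (hC0 : 0 < C0) (hInt : IntP S t C0) {W : ℝ} (hW : Chd S t W)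
    {τ δ δ₂ a ρ Λ : ℝ} {K : ℕ} (hK0 : 0 < K) {r L : ℕ → ℝ} {θ : ℕ → Side n → ℝ → ℝ}
    (hδ : 0 ≤ δ) (hδ₂ : 0 ≤ δ₂) (ha : 0 < a) (hρ : 0 < ρ) (hΛ : 0 < Λ)
    (hr : ∀ j, r j = 2 ^ j * ρ) (hL : ∀ j, L j = 2 ^ j * Λ)
    (hθ : ∀ j, Lay S t f (r j) (L j) (θ j))
    (hV : ∀ j ≤ K, ∀ s : Side n, ∫ x in Ioo (le S t s) (ri S t s),
      f s.1 x ^ 2 * ch S t s.1 x * fa (Rd S t f (r j) s) ((Es S t (θ j) s.1).indicator 1) x ≤
        1100 * n * L j * r j + δ)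
    (hSm : ∀ s : Side n, le S t s < ri S t s → ∀ j ≤ K, Sml S t f τ δ s (r j))
    (hlow : ∀ s : Side n, ∫ x in Ioo (le S t s) (ri S t s),
      {x | 0 < f s.1 x ^ 2 * ch S t s.1 x ∧
        f s.1 x ^ 2 * ch S t s.1 x < a}.indicator (1 : ℝ → ℝ) x ≤ δ₂) :
    ∃ G : Fin n → ℂ → ℂ, S.Sec (S.zt τ) G ∧ (∀ i, ∀ z ∈ S.tri i, ‖G i z‖ ≤ 1) ∧
      S.en ((t : ℂ) + Complex.I) G ≤ 32 / (K ^ 2 * Λ ^ 2) *
        (3 * n * (16 * K * (1100 * n * (Λ * ρ)) + 30 * (W * δ))) ∧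
      S.en 1 G ≤ C0 * (32 / (K ^ 2 * Λ ^ 2) *
        (3 * n * (16 * K * (1100 * n * (Λ * ρ)) + 30 * (W * δ))) +
        3 * n * (8192 / (K ^ 2 * ρ ^ 2) * (16 * K * (1100 * n * (Λ * ρ)) + 30 * (W * δ)) +
          512 / ρ ^ 2 * (W * (50 * δ)))) ∧
      ∑ i : Fin n, ∫ z in S.tri i, ‖G i z - uu τ f i (xi t z)‖ ≤
        C0 * (3 * n * (2 * δ + 3 * δ₂ + 2 / a * (1100 * n * (Λ * ρ) * 4 ^ K + δ))) := by
  classical
  have hKp : (0 : ℝ) < K := by exact_mod_cast hK0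
  have hr0 : ∀ j, 0 < r j := fun j => by rw [hr]; positivity
  have hL0 : ∀ j, 0 < L j := fun j => by rw [hL]; positivity
  have hW0 : 0 < W := zero_lt_one.trans_le hW.one_le
  have hm : ∀ j, r 0 ≤ r j := fun j => by
    rw [hr, hr, pow_zero, one_mul]
    exact le_mul_of_one_le_left hρ.le (one_le_pow₀ (by norm_num))
  -- the errors
  have hex : ∀ (s : Side n) (j : ℕ), ∃ e : ℝ → ℝ, Measurable e ∧ (∀ x, 0 ≤ e x) ∧
      (le S t s < ri S t s → j ≤ K →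
        IntegrableOn (fun x => e x ^ 2) (Ioo (le S t s) (ri S t s)) ∧
        ∫ x in Ioo (le S t s) (ri S t s), e x ^ 2 ≤ δ ∧
        ∀ x, le S t s < x → x < ri S t s →
          ¬ Zn (S.pf t f s.1) (le S t s) (ri S t s) (r j) x →
          r j / Rd S t f (r j) s x ≤ 4 * f s.1 x + e x) := by
    intro s j
    by_cases h : le S t s < ri S t s ∧ j ≤ K
    · obtain ⟨-, -, -, e, he1, he2, he3⟩ := hSm s h.1 j h.2
      exact ⟨e, he1, he2, fun _ _ => he3⟩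
    · exact ⟨0, measurable_zero, fun x => le_rfl, fun h3 h4 => absurd ⟨h3, h4⟩ h⟩
  choose e hem he0 he using hex
  obtain ⟨d, c, hd, hlip, hzero⟩ := C.ph_lip_all (τ := τ) (K := K) hZ hθ hr0 hL0 hm
  -- the bounds on the sides
  set B : ℝ := 16 * K * (1100 * n * (Λ * ρ)) + 30 * (W * δ) with hB
  have hB0 : 0 ≤ B := by positivity
  have hdeg : ∀ s : Side n, ¬ le S t s < ri S t s → Ioo (le S t s) (ri S t s) = ∅ :=
    fun s hs => Ioo_eq_empty hs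
  have hHx1 : ∀ s, IntegrableOn (fun x => hx S t f K r θ s x ^ 2 * ch S t s.1 x)
      (Ioo (le S t s) (ri S t s)) ∧
      ∫ x in Ioo (le S t s) (ri S t s), hx S t f K r θ s x ^ 2 * ch S t s.1 x ≤ B := by
    intro s
    by_cases hs : le S t s < ri S t s
    · refine C.ints hS hA hW hs hδ hρ hΛ hr hL hθ (fun j hj => hV j hj.le s)
        (fun j x => oj S t f (r j) s x) (fun j hj => (hSm s hs j hj.le).1.1)
        (fun j hj => ?_) (fun j hj => (hSm s hs j hj.le).1.2)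
      have h4 := (hSm s hs j hj.le).1.1.aestronglyMeasurable
      have h5 := Real.continuous_sqrt.comp_aestronglyMeasurable h4
      refine h5.congr ((ae_restrict_iff' measurableSet_Ioo).2 (ae_of_all _ fun x hx => ?_))
      exact Real.sqrt_sq (C.oj_nonneg (hr0 j) hx.1 hx.2)
    · rw [hdeg s hs]
      simp [hB0]
  have hHy1 : ∀ s, IntegrableOn (fun x => hy S t f K r θ (e s) s x ^ 2 * ch S t s.1 x)
      (Ioo (le S t s) (ri S t s)) ∧
      ∫ x in Ioo (le S t s) (ri S t s), hy S t f K r θ (e s) s x ^ 2 * ch S t s.1 x ≤ B := by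
    intro s
    by_cases hs : le S t s < ri S t s
    · exact C.ints hS hA hW hs hδ hρ hΛ hr hL hθ (fun j hj => hV j hj.le s)
        (e s) (fun j hj => (he s j hs hj.le).1)
        (fun j hj => (hem s j).aestronglyMeasurable) (fun j hj => (he s j hs hj.le).2.1)
    · rw [hdeg s hs]
      simp [hB0]
  have hHu1 : ∀ s, IntegrableOn (fun x => ((4 * f s.1 x + e s 0 x) ^ 2 *
      ou S t f τ (r 0) s x ^ 2) * ch S t s.1 x) (Ioo (le S t s) (ri S t s)) ∧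
      ∫ x in Ioo (le S t s) (ri S t s), ((4 * f s.1 x + e s 0 x) ^ 2 *
      ou S t f τ (r 0) s x ^ 2) * ch S t s.1 x ≤ W * (50 * δ) := by
    intro s
    by_cases hs : le S t s < ri S t s
    · have hsm := hSm s hs 0 (Nat.zero_le _)
      have hes := he s 0 hs (Nat.zero_le _)
      exact C.hu_int hW (hr0 0) hsm.2.1.1 hsm.2.2.1.1 hsm.2.2.1.2 (hem s 0) hes.1 hes.2.1
    · rw [hdeg s hs]
      have : 0 ≤ W * (50 * δ) := by positivity
      simp [this]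
  -- the majorants
  set cX : ℝ := 32 / (K ^ 2 * Λ ^ 2) with hcX
  set Hx : Side n → ℝ → ℝ := fun s x => hx S t f K r θ s x ^ 2 * ch S t s.1 x with hHx
  have hYi : ∀ s, IntegrableOn (fun x => 8192 / (K ^ 2 * ρ ^ 2) *
      (hy S t f K r θ (e s) s x ^ 2 * ch S t s.1 x) +
      512 / ρ ^ 2 * (((4 * f s.1 x + e s 0 x) ^ 2 * ou S t f τ (r 0) s x ^ 2) *
        ch S t s.1 x)) (Ioo (le S t s) (ri S t s)) := fun s =>
    ((hHy1 s).1.const_mul _).add ((hHu1 s).1.const_mul _)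
  obtain ⟨G, hG1, hG2, hG3, hG4, hG5⟩ := hInt (S.zt τ) (ph S t f τ K r θ)
    (fun i x => cX * ∑ k : Fin 3,
      (Ioo (le S t (i, k)) (ri S t (i, k))).indicator (Hx (i, k)) x)
    (fun s x => 8192 / (K ^ 2 * ρ ^ 2) * (hy S t f K r θ (e s) s x ^ 2 * ch S t s.1 x) +
      512 / ρ ^ 2 * (((4 * f s.1 x + e s 0 x) ^ 2 * ou S t f τ (r 0) s x ^ 2) *
        ch S t s.1 x)) c d hd hlip
    hzero (fun s x => C.norm_ph hθ hr0) (fun s x _ _ => C.ph_glue hθ hr0)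
    (fun i => (tri_sum C.part S t cX Hx (fun s => (hHx1 s).1) i).1)
    hYi
    (fun s s' hss => ae_of_all _ fun x hx1 hx2 =>
      C.xmaj hZ hT hW hK0 hρ hΛ hr hL hθ hss hx1 hx2)
    (fun s => by
      by_cases hs : le S t s < ri S t s
      · filter_upwards [ae_ne (C.dns hs).inc r] with x hx hx1 hx2
        obtain ⟨hxa, hxb⟩ := hx hx1 hx2
        exact C.ymaj hZ hW hK0 hρ hr hL0 hθ (he0 s) (fun j hj => (he s j hs hj).2.2) hx1 hx2
          hxa hxb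
      · exact ae_of_all _ fun x hx1 hx2 => absurd (hx1.trans hx2) hs)
  have hSX : ∑ i : Fin n, ∫ x in Ioo (S.xl t i) (S.xr t i), (cX * ∑ k : Fin 3,
      (Ioo (le S t (i, k)) (ri S t (i, k))).indicator (Hx (i, k)) x) ≤
      cX * (3 * n * B) := by
    calc ∑ i : Fin n, ∫ x in Ioo (S.xl t i) (S.xr t i), (cX * ∑ k : Fin 3,
      (Ioo (le S t (i, k)) (ri S t (i, k))).indicator (Hx (i, k)) x)
        = ∑ i : Fin n, cX * ∑ k : Fin 3,
            ∫ x in Ioo (le S t (i, k)) (ri S t (i, k)), Hx (i, k) x :=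
          Finset.sum_congr rfl fun i _ =>
            (tri_sum C.part S t cX Hx (fun s => (hHx1 s).1) i).2
      _ = cX * ∑ s : Side n, ∫ x in Ioo (le S t s) (ri S t s), Hx s x := by
          rw [← Finset.mul_sum, sum_pairs fun s => ∫ x in Ioo (le S t s) (ri S t s), Hx s x]
      _ ≤ cX * (3 * n * B) :=
          mul_le_mul_of_nonneg_left (sum_sides _ fun s => (hHx1 s).2) (by positivity)
  have hSY : ∑ s : Side n, ∫ x in Ioo (le S t s) (ri S t s),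
      (8192 / (K ^ 2 * ρ ^ 2) * (hy S t f K r θ (e s) s x ^ 2 * ch S t s.1 x) +
      512 / ρ ^ 2 * (((4 * f s.1 x + e s 0 x) ^ 2 * ou S t f τ (r 0) s x ^ 2) *
        ch S t s.1 x)) ≤
      3 * n * (8192 / (K ^ 2 * ρ ^ 2) * B + 512 / ρ ^ 2 * (W * (50 * δ))) := by
    refine sum_sides _ fun s => ?_
    rw [integral_add ((hHy1 s).1.const_mul _) ((hHu1 s).1.const_mul _), integral_const_mul,
      integral_const_mul]
    exact add_le_add (mul_le_mul_of_nonneg_left (hHy1 s).2 (by positivity))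
      (mul_le_mul_of_nonneg_left (hHu1 s).2 (by positivity))
  refine ⟨G, hG1, hG2, hG3.trans hSX,
    hG4.trans (mul_le_mul_of_nonneg_left (add_le_add hSX hSY) hC0.le), ?_⟩
  -- the distance
  refine (hG5 (fun i => uu τ f i) (fun i => meas_uu τ C.ld.meas i)
    (fun i x => norm_uu τ f i x)).trans ?_
  have hcl : ∀ s : Side n, ∫ x in Ioo (le S t s) (ri S t s),
      ‖ph S t f τ K r θ s x - uu τ f s.1 x‖ ≤
        2 * δ + 3 * δ₂ + 2 / a * (1100 * n * (Λ * ρ) * 4 ^ K + δ) := by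
    intro s
    by_cases hs : le S t s < ri S t s
    · have hsm := hSm s hs 0 (Nat.zero_le _)
      exact C.close hA hW hs hK0 ha hρ hΛ hr hL hθ (fun j hj => hV j hj.le s)
        hsm.2.1.1 hsm.2.1.2 (hlow s)
    · rw [hdeg s hs]
      have : 0 ≤ 2 * δ + 3 * δ₂ + 2 / a * (1100 * n * (Λ * ρ) * 4 ^ K + δ) := by positivity
      simpa using this
  exact mul_le_mul_of_nonneg_left (sum_sides _ hcl) hC0.le

end Pool.Agent.H79.BQ
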